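import Pool.Agent.TH30.PD.Torus

/-!
The transcendence degree of the periods of a motive with Mumford-Tate group of dimension at most
two.
-/

set_option autoImplicit false
set_option linter.unusedSectionVars false

open Matrix Algebra

namespace Pool.Agent.TH30.PD

/-- The field generated over `K` by the entries of the period matrix. -/
noncomputable def periodField (K : IntermediateField ℚ ℂ) {J : Type} [Fintype J] [DecidableEq J]
    (c : Matrix J J ℂ) : IntermediateField ℚ ℂ :=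
  IntermediateField.adjoin ℚ ((K : Set ℂ) ∪ entries c)

/-- The motive `h^1(E)` of an elliptic curve with complex multiplication by `ℚ(√-d)` (types
`(1,0)`, `(0,1)`; multiplication by `t = √-d`, which is `t` on `H^{1,0}` and `-t` on `H^{0,1}`,
is rational), whose periods generate a field of transcendence degree at least two. -/
structure IsCMCurve (d : ℚ) (E : Obj) : Prop where
  card : Fintype.card E.J = 2
  idem : E.P * E.P = E.P
  weight : E.P + cj E.P = 1
  cm : ∃ (t : ℂ) (X : Matrix E.J E.J ℚ), t ^ 2 = -(d : ℂ) ∧ t • (E.P - cj E.P) = cx X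
  chudnovsky : 2 ≤ Algebra.trdeg ℚ (IntermediateField.adjoin ℚ (entries E.c))

/-- For every imaginary quadratic field the class contains an elliptic curve with complex
multiplication by it. -/
def HasCMCurves (𝓜 : Obj → Prop) : Prop := ∀ d : ℚ, 0 < d → ∃ E, 𝓜 E ∧ IsCMCurve d E

/-- the blocks of the logarithmic derivative of a sum -/
theorem logDer_blocks {I J : Type} [Fintype I] [DecidableEq I] [Fintype J] [DecidableEq J]
    {c₁ : Matrix I I ℂ} {c₂ : Matrix J J ℂ} (h₁ : IsUnit c₁.det) (h₂ : IsUnit c₂.det)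
    (D : Derivation ℚ ℂ ℂ) {A : Matrix I I ℂ} {B : Matrix J J ℂ}
    (h : logDer ℚ (Matrix.fromBlocks c₁ 0 0 c₂) D = Matrix.fromBlocks A 0 0 B) :
    logDer ℚ c₁ D = A ∧ logDer ℚ c₂ D = B := by
  have hc : IsUnit (Matrix.fromBlocks c₁ 0 0 c₂).det := by
    rw [Matrix.det_fromBlocks_zero₂₁]
    exact h₁.mul h₂
  have h1 := logDer_mul hc D
  rw [h] at h1
  have h2 : Matrix.fromBlocks (A * c₁) 0 0 (B * c₂) =
      Matrix.fromBlocks (c₁.map D) 0 0 (c₂.map D) := by
    have h3 : Matrix.fromBlocks A 0 0 B * Matrix.fromBlocks c₁ 0 0 c₂ =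
        Matrix.fromBlocks (A * c₁) 0 0 (B * c₂) := by
      rw [Matrix.fromBlocks_multiply]
      simp only [Matrix.mul_zero, Matrix.zero_mul, add_zero, zero_add]
    have h4 : (Matrix.fromBlocks c₁ 0 0 c₂).map D =
        Matrix.fromBlocks (c₁.map D) 0 0 (c₂.map D) := by
      rw [Matrix.fromBlocks_map]
      congr 1
      · ext i j; simp
      · ext i j; simp
    rw [← h3, ← h4, h1]
  obtain ⟨e1, -, -, e2⟩ := Matrix.fromBlocks_inj.1 h2
  refine ⟨?_, ?_⟩
  · rw [logDer_apply, ← e1, Matrix.mul_assoc, Matrix.mul_nonsing_inv _ h₁, Matrix.mul_one]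
  · rw [logDer_apply, ← e2, Matrix.mul_assoc, Matrix.mul_nonsing_inv _ h₂, Matrix.mul_one]

theorem cj_blocks {I J : Type} (A : Matrix I I ℂ) (B : Matrix J J ℂ) :
    cj (Matrix.fromBlocks A 0 0 B) = Matrix.fromBlocks (cj A) 0 0 (cj B) := by
  rw [cj, Matrix.fromBlocks_map]
  congr 1
  · ext i j; simp
  · ext i j; simp

theorem cx_blocks {I J : Type} (A : Matrix I I ℚ) (B : Matrix J J ℚ) :
    cx (Matrix.fromBlocks A 0 0 B) = Matrix.fromBlocks (cx A) 0 0 (cx B) := by
  rw [cx, Matrix.fromBlocks_map]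
  congr 1
  · ext i j; simp
  · ext i j; simp

/-- two motives attached to the same imaginary quadratic field -/
theorem pair {𝓜 : Obj → Prop} (h𝓜 : IsClass 𝓜) {M N : Obj} (hM : 𝓜 M) (hN : 𝓜 N) {t : ℂ}
    (ht : t ≠ 0) {X : Matrix M.J M.J ℚ} (hX : t • (M.P - cj M.P) = cx X)
    {Y : Matrix N.J N.J ℚ} (hY : t • (N.P - cj N.P) = cx Y) (D : Derivation ℚ ℂ ℂ) :
    ∃ α β : ℂ, logDer ℚ M.c D = α • M.P + β • cj M.P ∧ logDer ℚ N.c D = α • N.P + β • cj N.P := by
  have hMN := h𝓜.sum M N hM hN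
  have hmem : logDer ℚ (Matrix.fromBlocks M.c 0 0 N.c) D ∈ mtC (Matrix.fromBlocks M.P 0 0 N.P) :=
    logDer_mem h𝓜 hMN D
  have hH : IsHodge (Matrix.fromBlocks M.P 0 0 N.P) := h𝓜.hodge _ hMN
  obtain ⟨α, β, h⟩ := combination (X := Matrix.fromBlocks X 0 0 Y) hH ht (by
    rw [cx_blocks, ← hX, ← hY, cj_blocks, sub_eq_add_neg, Matrix.fromBlocks_neg,
      Matrix.fromBlocks_add, Matrix.fromBlocks_smul]
    simp [sub_eq_add_neg]) hmem
  refine ⟨α, β, logDer_blocks (h𝓜.det M hM) (h𝓜.det N hN) D ?_⟩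
  rw [h, cj_blocks, Matrix.fromBlocks_smul, Matrix.fromBlocks_smul, Matrix.fromBlocks_add]
  simp

/-- the combinations of the two operators -/
noncomputable def comb {J : Type} [Fintype J] [DecidableEq J] (P : Matrix J J ℂ) :
    ℂ × ℂ →ₗ[ℂ] Matrix J J ℂ :=
  (LinearMap.toSpanSingleton ℂ _ P).coprod (LinearMap.toSpanSingleton ℂ _ (cj P))

theorem comb_apply {J : Type} [Fintype J] [DecidableEq J] (P : Matrix J J ℂ) (α β : ℂ) :
    comb P (α, β) = α • P + β • cj P := rfl

theorem trdeg_le_mt {𝓜 : Obj → Prop} (h𝓜 : IsClass 𝓜) {M : Obj} (hM : 𝓜 M)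
    (K : IntermediateField ℚ ℂ) [Algebra.IsAlgebraic ℚ K] :
    Algebra.trdeg ℚ (periodField K M.c) ≤ Module.finrank ℚ (mt M.P) := by
  refine trdeg_le _ (mtC M.P) _ (finrank_mtC_le M.P) (logDer ℚ M.c)
    (fun D => logDer_mem h𝓜 hM D) fun D hD s hs => ?_
  rcases hs with hs | hs
  · refine der_algebraic D ?_
    have h1 := Algebra.IsAlgebraic.isAlgebraic (R := ℚ) (⟨s, hs⟩ : K)
    exact h1.algebraMap (A := ℂ)
  · exact logDer_zero (h𝓜.det M hM) hD s hs

/-- the transcendence degree of the periods is the dimension of the Mumford-Tate group, if the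
latter is at most two, and the weight is not zero when it is two -/
theorem trdeg_eq {𝓜 : Obj → Prop} (h𝓜 : IsClass 𝓜) (hCM : HasCMCurves 𝓜) {M : Obj} (hM : 𝓜 M)
    (hd : Module.finrank ℚ (mt M.P) ≤ 2)
    (hw : Module.finrank ℚ (mt M.P) = 2 → M.P + cj M.P ≠ 0)
    (K : IntermediateField ℚ ℂ) [Algebra.IsAlgebraic ℚ K] :
    Algebra.trdeg ℚ (periodField K M.c) = Module.finrank ℚ (mt M.P) := by
  refine le_antisymm (trdeg_le_mt h𝓜 hM K) ?_
  obtain ⟨d, t, X, hd0, ht, hX⟩ := exists_quadratic (h𝓜.hodge M hM) hd hw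
  obtain ⟨E, hE, hEcm⟩ := hCM d hd0
  obtain ⟨t', Y', ht', hY'⟩ := hEcm.cm
  have ht0 : t ≠ 0 := by
    rintro rfl
    have : (d : ℂ) = 0 := by
      have h1 : (0 : ℂ) = -(d : ℂ) := by rw [← ht]; ring
      linear_combination h1
    have h2 : d = 0 := by exact_mod_cast this
    exact absurd h2 (ne_of_gt hd0)
  -- the same square root
  obtain ⟨Y, hY⟩ : ∃ Y : Matrix E.J E.J ℚ, t • (E.P - cj E.P) = cx Y := by
    rcases sq_eq_sq_iff_eq_or_eq_neg.1 (ht.trans ht'.symm) with h | h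
    · exact ⟨Y', by rw [h, hY']⟩
    · refine ⟨-Y', ?_⟩
      rw [h, neg_smul, hY']
      ext i j; simp [cx]
  set F := periodField K M.c with hF
  set G := IntermediateField.adjoin F (entries E.c) with hG
  set r := Module.finrank ℚ (mt M.P) with hr
  -- the logarithmic derivatives of `E`
  set U : Submodule ℂ (Matrix E.J E.J ℂ) := (LinearMap.ker (comb M.P)).map (comb E.P) with hU
  have hUle : Module.finrank ℂ U ≤ 2 - r := by
    have h1 : Module.finrank ℂ U ≤ Module.finrank ℂ (LinearMap.ker (comb M.P)) :=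
      Submodule.finrank_map_le _ _
    have h2 := LinearMap.finrank_range_add_finrank_ker (comb M.P)
    have h3 : Module.finrank ℂ (ℂ × ℂ) = 2 := by simp
    have h4 : r ≤ Module.finrank ℂ (LinearMap.range (comb M.P)) := by
      refine finrank_mt_le M.P _ fun Z hZ => ?_
      obtain ⟨α, β, h⟩ := combination (h𝓜.hodge M hM) ht0 hX (cx_mem_mtC.2 hZ)
      exact ⟨(α, β), by rw [comb_apply, h]⟩
    omega
  have hG1 : Algebra.trdeg F G ≤ (2 - r : ℕ) := by
    refine trdeg_le (L := F) (entries E.c) U (2 - r) hUle (logDer F E.c) (fun D => ?_)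
      fun D hD => logDer_zero (h𝓜.det E hE) hD
    obtain ⟨α, β, h1, h2⟩ := pair h𝓜 hM hE ht0 hX hY (down D)
    refine ⟨(α, β), ?_, ?_⟩
    · rw [SetLike.mem_coe, LinearMap.mem_ker, comb_apply, ← h1]
      refine logDer_of_kills fun s hs => down_mem D ?_
      exact IntermediateField.subset_adjoin ℚ _ (Or.inr hs)
    · rw [comb_apply, ← h2]
      exact (logDer_down E.c D).symm ▸ rfl
  have hG2 : (2 : Cardinal) ≤ Algebra.trdeg ℚ G := by
    refine hEcm.chudnovsky.trans ?_
    have hle : IntermediateField.adjoin ℚ (entries E.c) ≤ G.restrictScalars ℚ := by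
      rw [IntermediateField.adjoin_le_iff]
      exact IntermediateField.subset_adjoin F (entries E.c)
    exact trdeg_le_of_injective (IntermediateField.inclusion hle)
      (IntermediateField.inclusion hle).injective
  have hsum : Algebra.trdeg ℚ F + Algebra.trdeg F G = Algebra.trdeg ℚ G :=
    trdeg_add_eq ℚ F (A := G)
  have hF1 : Algebra.trdeg ℚ F ≤ r := trdeg_le_mt h𝓜 hM K
  obtain ⟨n, hn⟩ := Cardinal.lt_aleph0.1 (hF1.trans_lt Cardinal.natCast_lt_aleph0)
  obtain ⟨m, hm⟩ := Cardinal.lt_aleph0.1 (hG1.trans_lt Cardinal.natCast_lt_aleph0)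
  rw [hn, hm] at hsum
  rw [← hsum] at hG2
  rw [hm] at hG1
  rw [hn]
  have h1 : m ≤ 2 - r := by exact_mod_cast hG1
  have h2 : 2 ≤ n + m := by exact_mod_cast hG2
  have h3 : r ≤ n := by omega
  exact_mod_cast h3

end Pool.Agent.TH30.PD
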