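import Pool.Agent.TH30.PD.Obj

/-!
The Lie algebra of the Mumford-Tate group as the least rational Lie algebra whose complexification
contains the Hodge operator.
-/

set_option autoImplicit false
set_option linter.unusedSectionVars false

open Matrix

namespace Pool.Agent.TH30.PD

section hull

variable {A B : Type} [Ring A] [Algebra ℚ A] [Ring B] [Algebra ℚ B]

/-- a subspace closed under commutators -/
def IsLie (W : Submodule ℚ A) : Prop := ∀ X ∈ W, ∀ Y ∈ W, X * Y - Y * X ∈ W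

/-- the Lie algebra generated by a set -/
def gen (S : Set A) : Submodule ℚ A := sInf {W | S ⊆ W ∧ IsLie W}

theorem subset_gen (S : Set A) : S ⊆ gen S := by
  intro x hx
  rw [gen, SetLike.mem_coe, Submodule.mem_sInf]
  intro W hW
  exact hW.1 hx

theorem gen_le {S : Set A} {W : Submodule ℚ A} (h : S ⊆ W) (hW : IsLie W) : gen S ≤ W :=
  sInf_le ⟨h, hW⟩

theorem isLie_gen (S : Set A) : IsLie (gen S) := by
  intro X hX Y hY
  rw [gen, Submodule.mem_sInf] at hX hY ⊢
  intro W hW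
  exact hW.2 X (hX W hW) Y (hY W hW)

theorem map_gen (f : A →ₐ[ℚ] B) (S : Set A) : (gen S).map f.toLinearMap = gen (f '' S) := by
  apply le_antisymm
  · rw [Submodule.map_le_iff_le_comap]
    refine gen_le (fun x hx => subset_gen _ ⟨x, hx, rfl⟩) fun X hX Y hY => ?_
    rw [Submodule.mem_comap] at hX hY ⊢
    have := isLie_gen _ _ hX _ hY
    simpa using this
  · refine gen_le ?_ ?_
    · rintro _ ⟨x, hx, rfl⟩
      exact ⟨x, subset_gen _ hx, rfl⟩
    · rintro _ ⟨X, hX, rfl⟩ _ ⟨Y, hY, rfl⟩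
      exact ⟨X * Y - Y * X, isLie_gen _ _ hX _ hY, by simp⟩

end hull

section mt

variable {I J : Type} [Fintype I] [DecidableEq I] [Fintype J] [DecidableEq J]

/-- The Lie algebra of the Mumford-Tate group: the least rational Lie algebra of matrices whose
complexification contains the Hodge operator. -/
noncomputable def lieMT (P : Matrix J J ℂ) : Submodule ℚ (Matrix J J ℚ) :=
  sInf {W | P ∈ Submodule.span ℂ (cx '' (W : Set (Matrix J J ℚ))) ∧
    ∀ X ∈ W, ∀ Y ∈ W, X * Y - Y * X ∈ W}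

/-- the rational coordinates of a complex matrix -/
def coords (P : Matrix J J ℂ) : Set (Matrix J J ℚ) := {X | ∃ φ : ℂ →ₗ[ℚ] ℚ, X = P.map φ}

theorem map_of_span {W : Submodule ℚ (Matrix J J ℚ)} {P : Matrix J J ℂ}
    (hP : P ∈ Submodule.span ℂ (cx '' (W : Set (Matrix J J ℚ)))) (φ : ℂ →ₗ[ℚ] ℚ) :
    P.map φ ∈ W := by
  induction hP using Submodule.span_induction generalizing φ with
  | mem Z h =>
    obtain ⟨X, hX, rfl⟩ := h
    have : (cx X).map φ = φ 1 • X := by
      ext i j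
      simp only [cx, Matrix.map_apply, Matrix.smul_apply, smul_eq_mul]
      rw [show (Rat.castHom ℂ) (X i j) = (X i j) • (1 : ℂ) from by rw [Rat.smul_def, mul_one]; rfl,
        map_smul, smul_eq_mul, mul_comm]
    rw [this]
    exact W.smul_mem _ hX
  | zero =>
    have : (0 : Matrix J J ℂ).map φ = 0 := by ext i j; simp
    rw [this]
    exact W.zero_mem
  | add Z Z' _ _ h h' =>
    have : (Z + Z').map φ = Z.map φ + Z'.map φ := by ext i j; simp
    rw [this]
    exact W.add_mem (h φ) (h' φ)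
  | smul a Z _ h =>
    have : (a • Z).map φ = Z.map (φ ∘ₗ (LinearMap.mulLeft ℚ a)) := by ext i j; simp
    rw [this]
    exact h _

theorem span_of_map {W : Submodule ℚ (Matrix J J ℚ)} {P : Matrix J J ℂ}
    (hP : ∀ φ : ℂ →ₗ[ℚ] ℚ, P.map φ ∈ W) :
    P ∈ Submodule.span ℂ (cx '' (W : Set (Matrix J J ℚ))) := by
  classical
  let b := Module.Basis.ofVectorSpace ℚ ℂ
  let T : Finset _ := Finset.univ.biUnion fun x : J × J => (b.repr (P x.1 x.2)).support
  have h2 : P = ∑ t ∈ T, b t • cx (P.map (b.coord t)) := by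
    ext i j
    rw [Matrix.sum_apply]
    have h3 := b.linearCombination_repr (P i j)
    rw [Finsupp.linearCombination_apply, Finsupp.sum] at h3
    conv_lhs => rw [← h3]
    refine (Finset.sum_subset (Finset.subset_biUnion_of_mem
      (fun x : J × J => (b.repr (P x.1 x.2)).support) (Finset.mem_univ (i, j)))
      fun t _ ht => ?_).trans ?_
    · rw [Finsupp.notMem_support_iff.1 ht, zero_smul]
    · refine Finset.sum_congr rfl fun t _ => ?_
      rw [Matrix.smul_apply, cx, Matrix.map_apply, Matrix.map_apply, smul_eq_mul, Rat.smul_def,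
        mul_comm]
      rfl
  rw [h2]
  exact Submodule.sum_mem _ fun t _ => Submodule.smul_mem _ _
    (Submodule.subset_span ⟨_, hP _, rfl⟩)

theorem lieMT_eq (P : Matrix J J ℂ) : lieMT P = gen (coords P) := by
  rw [lieMT, gen]
  congr 1
  ext W
  simp only [Set.mem_ofPred_eq]
  refine and_congr ⟨?_, ?_⟩ Iff.rfl
  · rintro h _ ⟨φ, rfl⟩
    exact map_of_span h φ
  · intro h
    exact span_of_map fun φ => h ⟨φ, rfl⟩

/-- two operators related by a rational Lie algebra which is the graph of an isomorphism -/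
theorem finrank_lieMT_eq (P : Matrix I I ℂ) (Q : Matrix J J ℂ)
    (W : Submodule ℚ (Matrix I I ℚ × Matrix J J ℚ)) (hW : IsLie W)
    (hPQ : ∀ φ : ℂ →ₗ[ℚ] ℚ, (P.map φ, Q.map φ) ∈ W)
    (h1 : ∀ X, ((X, 0) : Matrix I I ℚ × Matrix J J ℚ) ∈ W → X = 0)
    (h2 : ∀ Y, ((0, Y) : Matrix I I ℚ × Matrix J J ℚ) ∈ W → Y = 0) :
    Module.finrank ℚ (lieMT P) = Module.finrank ℚ (lieMT Q) := by
  set S : Set (Matrix I I ℚ × Matrix J J ℚ) :=
    {x | ∃ φ : ℂ →ₗ[ℚ] ℚ, x = (P.map φ, Q.map φ)} with hS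
  have hle : gen S ≤ W := gen_le (by rintro _ ⟨φ, rfl⟩; exact hPQ φ) hW
  have e1 : (gen S).map (AlgHom.fst ℚ (Matrix I I ℚ) (Matrix J J ℚ)).toLinearMap = lieMT P := by
    rw [map_gen, lieMT_eq]
    congr 1
    ext X
    constructor
    · rintro ⟨_, ⟨φ, rfl⟩, rfl⟩
      exact ⟨φ, rfl⟩
    · rintro ⟨φ, rfl⟩
      exact ⟨_, ⟨φ, rfl⟩, rfl⟩
  have e2 : (gen S).map (AlgHom.snd ℚ (Matrix I I ℚ) (Matrix J J ℚ)).toLinearMap = lieMT Q := by
    rw [map_gen, lieMT_eq]
    congr 1
    ext X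
    constructor
    · rintro ⟨_, ⟨φ, rfl⟩, rfl⟩
      exact ⟨φ, rfl⟩
    · rintro ⟨φ, rfl⟩
      exact ⟨_, ⟨φ, rfl⟩, rfl⟩
  have key : ∀ f : (Matrix I I ℚ × Matrix J J ℚ) →ₗ[ℚ] Matrix I I ℚ,
      (∀ x ∈ gen S, f x = 0 → x = 0) →
      Module.finrank ℚ ((gen S).map f) = Module.finrank ℚ (gen S) := by
    intro f hf
    have hinj : Function.Injective (f.domRestrict (gen S)) := by
      rw [← LinearMap.ker_eq_bot, LinearMap.ker_eq_bot']
      intro x hx
      exact Subtype.ext (hf x x.2 hx)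
    rw [← LinearMap.finrank_range_of_inj hinj, LinearMap.range_domRestrict]
  have key' : ∀ f : (Matrix I I ℚ × Matrix J J ℚ) →ₗ[ℚ] Matrix J J ℚ,
      (∀ x ∈ gen S, f x = 0 → x = 0) →
      Module.finrank ℚ ((gen S).map f) = Module.finrank ℚ (gen S) := by
    intro f hf
    have hinj : Function.Injective (f.domRestrict (gen S)) := by
      rw [← LinearMap.ker_eq_bot, LinearMap.ker_eq_bot']
      intro x hx
      exact Subtype.ext (hf x x.2 hx)
    rw [← LinearMap.finrank_range_of_inj hinj, LinearMap.range_domRestrict]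
  rw [← e1, ← e2, key, key']
  · rintro ⟨X, Y⟩ hx h
    have hY : Y = 0 := h
    subst hY
    rw [h1 X (hle hx)]
    rfl
  · rintro ⟨X, Y⟩ hx h
    have hX : X = 0 := h
    subst hX
    rw [h2 Y (hle hx)]
    rfl

end mt

end Pool.Agent.TH30.PD
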