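import Pool.Agent.TH30.PD.Hull
import Pool.Agent.TH30.PD.Dim2

/-!
Periods of a motive of K3 type and of its Kuga-Satake variety.
-/

set_option autoImplicit false
set_option linter.unusedSectionVars false
set_option linter.unusedSimpArgs false

open Matrix Algebra
open scoped Kronecker

namespace Pool.Agent.TH30.PD

section tens

variable {R I J : Type} [CommRing R] [Fintype I] [DecidableEq I] [Fintype J] [DecidableEq J]

/-- the action of a pair of matrices on a tensor product -/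
def tens (A : Matrix I I R) (B : Matrix J J R) : Matrix (I × J) (I × J) R := A ⊗ₖ 1 + 1 ⊗ₖ B

theorem tens_mul (A A' : Matrix I I R) (B B' : Matrix J J R) :
    tens A B * tens A' B' = (A * A') ⊗ₖ 1 + A ⊗ₖ B' + A' ⊗ₖ B + 1 ⊗ₖ (B * B') := by
  simp only [tens, Matrix.add_mul, Matrix.mul_add, ← Matrix.mul_kronecker_mul, Matrix.one_mul,
    Matrix.mul_one]
  abel

theorem tens_comm (A A' : Matrix I I R) (B B' : Matrix J J R) :
    tens (A * A' - A' * A) (B * B' - B' * B) = tens A B * tens A' B' - tens A' B' * tens A B := by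
  rw [tens_mul, tens_mul, tens, sub_eq_add_neg (A * A'), sub_eq_add_neg (B * B'),
    Matrix.add_kronecker, Matrix.kronecker_add]
  have h1 : (-(A' * A)) ⊗ₖ (1 : Matrix J J R) = -((A' * A) ⊗ₖ 1) := by
    ext x y; simp [Matrix.kronecker_apply]
  have h2 : (1 : Matrix I I R) ⊗ₖ (-(B' * B)) = -((1 : Matrix I I R) ⊗ₖ (B' * B)) := by
    ext x y; simp [Matrix.kronecker_apply]
  rw [h1, h2]
  abel

theorem neg_transpose_comm (A A' : Matrix I I R) :
    -(A * A' - A' * A).transpose =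
      (-A.transpose) * (-A'.transpose) - (-A'.transpose) * (-A.transpose) := by
  rw [Matrix.transpose_sub, Matrix.transpose_mul, Matrix.transpose_mul, neg_mul_neg,
    neg_mul_neg, neg_sub]

theorem tens_add (A A' : Matrix I I R) (B B' : Matrix J J R) :
    tens (A + A') (B + B') = tens A B + tens A' B' := by
  rw [tens, tens, tens, Matrix.add_kronecker, Matrix.kronecker_add]
  abel

theorem tens_smul (r : R) (A : Matrix I I R) (B : Matrix J J R) :
    tens (r • A) (r • B) = r • tens A B := by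
  rw [tens, tens, Matrix.smul_kronecker, Matrix.kronecker_smul, smul_add]

theorem tens_mulVec (A : Matrix I I R) (B : Matrix J J R) (v : I × J → R) (x : I × J) :
    (tens A B *ᵥ v) x = ∑ i, A x.1 i * v (i, x.2) + ∑ j, B x.2 j * v (x.1, j) := by
  rw [tens, Matrix.add_mulVec, Pi.add_apply]
  congr 1
  · rw [Matrix.mulVec, dotProduct, Fintype.sum_prod_type]
    refine Finset.sum_congr rfl fun i _ => ?_
    rw [Finset.sum_eq_single x.2]
    · simp [Matrix.kronecker_apply]
    · intro j _ hj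
      simp [Matrix.kronecker_apply, Matrix.one_apply_ne (Ne.symm hj)]
    · intro h; exact absurd (Finset.mem_univ _) h
  · rw [Matrix.mulVec, dotProduct, Fintype.sum_prod_type, Finset.sum_eq_single x.1]
    · refine Finset.sum_congr rfl fun j _ => ?_
      simp [Matrix.kronecker_apply]
    · intro i _ hi
      refine Finset.sum_eq_zero fun j _ => ?_
      simp [Matrix.kronecker_apply, Matrix.one_apply_ne (Ne.symm hi)]
    · intro h; exact absurd (Finset.mem_univ _) h

end tens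

section maps

variable {I J : Type} [Fintype I] [DecidableEq I] [Fintype J] [DecidableEq J]

theorem tens_map (φ : ℂ →ₗ[ℚ] ℚ) (A : Matrix I I ℂ) (B : Matrix J J ℂ) :
    tens (A.map φ) (B.map φ) = (tens A B).map φ := by
  ext ⟨a, b⟩ ⟨c, d⟩
  simp only [tens, Matrix.add_apply, Matrix.kronecker_apply, Matrix.map_apply, map_add,
    Matrix.one_apply]
  split_ifs <;> simp

theorem neg_transpose_map (φ : ℂ →ₗ[ℚ] ℚ) (A : Matrix I I ℂ) :
    -(A.map φ).transpose = (-A.transpose).map φ := by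
  ext a b
  simp

/-- a rational vector as a complex one -/
def cv (v : I → ℚ) (i : I) : ℂ := ((v i : ℚ) : ℂ)

theorem mulVec_map (φ : ℂ →ₗ[ℚ] ℚ) (A : Matrix I I ℂ) (v : I → ℚ) (h : A *ᵥ cv v = 0) :
    A.map φ *ᵥ v = 0 := by
  funext i
  have h1 := congrArg φ (congrFun h i)
  rw [Pi.zero_apply, map_zero] at h1
  rw [Pi.zero_apply, ← h1, Matrix.mulVec, dotProduct, Matrix.mulVec, dotProduct, map_sum]
  refine Finset.sum_congr rfl fun j _ => ?_
  rw [Matrix.map_apply, cv, mul_comm (A i j), ← Rat.smul_def, map_smul, smul_eq_mul, mul_comm]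

theorem tens_cx (A : Matrix I I ℚ) (B : Matrix J J ℚ) : tens (cx A) (cx B) = cx (tens A B) := by
  ext ⟨a, b⟩ ⟨c, d⟩
  simp only [tens, Matrix.add_apply, Matrix.kronecker_apply, cx, Matrix.map_apply, map_add,
    Matrix.one_apply, map_mul]
  split_ifs <;> simp

theorem cx_mulVec (A : Matrix I I ℚ) (v : I → ℚ) : cx A *ᵥ cv v = cv (A *ᵥ v) := by
  funext i
  simp [Matrix.mulVec, dotProduct, cx, cv]

end maps

/-- tensor product of motives -/
noncomputable def Obj.tensor (M N : Obj) : Obj where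
  J := M.J × N.J
  c := M.c ⊗ₖ N.c
  P := tens M.P N.P

/-- the motive `ℚ(-1)`: period `2πi`, Hodge type `(1,1)` -/
noncomputable def tate : Obj where
  J := Unit
  c := fun _ _ => 2 * Real.pi * Complex.I
  P := 1

/-- A class of motives over fields of algebraic numbers, closed under tensor products and duals,
on which Hodge classes of type `(0,0)` have algebraic de Rham coordinates. -/
structure IsTensorClass (𝓜 : Obj → Prop) : Prop where
  tensor : ∀ M N, 𝓜 M → 𝓜 N → 𝓜 (M.tensor N)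
  dual : ∀ M, 𝓜 M → 𝓜 M.dual
  tate : 𝓜 tate
  det : ∀ M, 𝓜 M → IsUnit M.c.det
  hodge : ∀ M, 𝓜 M → IsHodge M.P
  classes : ∀ M, 𝓜 M → ∀ v : M.J → ℚ, M.P *ᵥ cv v = 0 →
    ∃ g : M.J → ℂ, (∀ i, IsAlgebraic ℚ (g i)) ∧ M.c *ᵥ g = cv v

/-- `X` is the logarithmic derivative of `c` -/
def IsLD {J : Type} [Fintype J] (D : Derivation ℚ ℂ ℂ) (c X : Matrix J J ℂ) : Prop :=
  X * c = c.map D

theorem isLD_self {J : Type} [Fintype J] [DecidableEq J] {D : Derivation ℚ ℂ ℂ}
    {c : Matrix J J ℂ} (hc : IsUnit c.det) : IsLD D c (logDer ℚ c D) := logDer_mul hc D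

theorem IsLD.dual {J : Type} [Fintype J] [DecidableEq J] {D : Derivation ℚ ℂ ℂ}
    {c X : Matrix J J ℂ} (hc : IsUnit c.det) (h : IsLD D c X) :
    IsLD D (c⁻¹).transpose (-X.transpose) := by
  have h1 : X = logDer ℚ c D := by
    rw [logDer_apply, ← h, Matrix.mul_assoc, Matrix.mul_nonsing_inv _ hc, Matrix.mul_one]
  rw [h1]
  exact map_inv_transpose hc D

theorem IsLD.tens {I J : Type} [Fintype J] [DecidableEq J] [Fintype I] [DecidableEq I]
    {D : Derivation ℚ ℂ ℂ} {c X : Matrix I I ℂ} {c' X' : Matrix J J ℂ} (h : IsLD D c X)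
    (h' : IsLD D c' X') : IsLD D (c ⊗ₖ c') (PD.tens X X') := by
  rw [IsLD, PD.tens, Matrix.add_mul, ← Matrix.mul_kronecker_mul, ← Matrix.mul_kronecker_mul,
    Matrix.one_mul, Matrix.one_mul, h, h']
  ext ⟨a, b⟩ ⟨d, e⟩
  simp only [Matrix.add_apply, Matrix.kronecker_apply, Matrix.map_apply, D.leibniz, smul_eq_mul]
  ring

/-- the logarithmic derivative kills the rational Hodge classes -/
theorem IsLD.kills {𝓜 : Obj → Prop} (h𝓜 : IsTensorClass 𝓜) {M : Obj} (hM : 𝓜 M)
    {D : Derivation ℚ ℂ ℂ} {X : Matrix M.J M.J ℂ} (h : IsLD D M.c X) (v : M.J → ℚ)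
    (hv : M.P *ᵥ cv v = 0) : X *ᵥ cv v = 0 := by
  obtain ⟨g, hg, hgv⟩ := h𝓜.classes M hM v hv
  rw [← hgv, Matrix.mulVec_mulVec, h]
  funext i
  have h1 : D ((M.c *ᵥ g) i) = 0 := by
    rw [hgv]
    exact der_algebraic D (isAlgebraic_algebraMap (v i))
  rw [Matrix.mulVec, dotProduct, map_sum] at h1
  rw [Pi.zero_apply, ← h1, Matrix.mulVec, dotProduct]
  refine Finset.sum_congr rfl fun j _ => ?_
  rw [D.leibniz, der_algebraic D (hg j), smul_zero, zero_add, smul_eq_mul, Matrix.map_apply,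
    mul_comm]

/-- A Kuga-Satake pair: `V` of weight zero (the primitive second cohomology of a K3 surface,
twisted), `N = h¹` of an abelian variety, `κ : V ⊗ V → End N` (multiplication by products of two
vectors on the even Clifford algebra) and a polarisation `Ψ : N ⊗ N → ℚ(-1)`. -/
structure KugaSatake (V N : Obj) (κ : V.J → V.J → Matrix N.J N.J ℚ) (Ψ : Matrix N.J N.J ℚ) :
    Prop where
  /-- `V` has weight zero -/
  weight_zero : V.P + cj V.P = 0
  /-- `N` has types `(1,0)` and `(0,1)` -/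
  idem : N.P * N.P = N.P
  weight_one : N.P + cj N.P = 1
  /-- `κ` is a morphism of Hodge structures -/
  hodge : ∀ a b, ∑ a', V.P a' a • cx (κ a' b) + ∑ b', V.P b' b • cx (κ a b') =
    N.P * cx (κ a b) - cx (κ a b) * N.P
  /-- only scalars commute with the image of `κ` and with the endomorphisms of `N` -/
  commutant : ∀ Y : Matrix N.J N.J ℂ, (∀ a b, Y * cx (κ a b) = cx (κ a b) * Y) →
    (∀ E : Matrix N.J N.J ℚ, cx E * N.P = N.P * cx E → Y * cx E = cx E * Y) →
    ∃ y : ℂ, Y = y • 1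
  /-- infinitesimal faithfulness -/
  faithful : ∀ X : Matrix V.J V.J ℂ,
    (∀ a b, ∑ a', X a' a • cx (κ a' b) + ∑ b', X b' b • cx (κ a b') = 0) → X = 0
  /-- the polarisation -/
  ne_zero : Ψ ≠ 0
  polar : N.P.transpose * cx Ψ + cx Ψ * N.P = cx Ψ

section vectors

variable {I J : Type} [Fintype I] [DecidableEq I] [Fintype J] [DecidableEq J]

/-- `κ` as a vector -/
def kvec (κ : I → I → Matrix J J ℚ) (x : (I × I) × (J × J)) : ℚ := κ x.1.1 x.1.2 x.2.1 x.2.2

/-- an endomorphism as a vector -/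
def evec (E : Matrix J J ℚ) (x : J × J) : ℚ := E x.1 x.2

/-- a form with values in `ℚ(-1)` as a vector -/
def pvec (Ψ : Matrix J J ℚ) (x : (J × J) × Unit) : ℚ := Ψ x.1.1 x.1.2

/-- the action on `V^∨ ⊗ V^∨ ⊗ N ⊗ N^∨` -/
def onK {R : Type} [CommRing R] (X : Matrix I I R) (A : Matrix J J R) :
    Matrix ((I × I) × (J × J)) ((I × I) × (J × J)) R :=
  tens (tens (-X.transpose) (-X.transpose)) (tens A (-A.transpose))

theorem onK_apply (κ : I → I → Matrix J J ℚ) (X : Matrix I I ℂ) (A : Matrix J J ℂ) (a b : I)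
    (w w' : J) : (onK X A *ᵥ cv (kvec κ)) ((a, b), (w, w')) =
      (A * cx (κ a b) - cx (κ a b) * A -
        (∑ a', X a' a • cx (κ a' b) + ∑ b', X b' b • cx (κ a b'))) w w' := by
  rw [onK, tens_mulVec]
  have h1 : ∀ (v : (I × I) × (J × J) → ℂ) (y : J × J) (x : I × I),
      ∑ i, tens (-X.transpose) (-X.transpose) x i * v (i, y) =
      (tens (-X.transpose) (-X.transpose) *ᵥ fun i => v (i, y)) x := fun _ _ _ => rfl
  have h2 : ∀ (v : (I × I) × (J × J) → ℂ) (y : J × J) (x : I × I),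
      ∑ j, tens A (-A.transpose) y j * v (x, j) =
      (tens A (-A.transpose) *ᵥ fun j => v (x, j)) y := fun _ _ _ => rfl
  rw [h1, h2, tens_mulVec, tens_mulVec]
  simp only [Matrix.neg_apply, Matrix.transpose_apply, cv, kvec, Matrix.sub_apply,
    Matrix.add_apply, Matrix.sum_apply, Matrix.smul_apply, smul_eq_mul, Matrix.mul_apply, cx,
    Matrix.map_apply, eq_ratCast, neg_mul, Finset.sum_neg_distrib]
  have h3 : ∑ x, A x w' * (κ a b w x : ℂ) = ∑ x, (κ a b w x : ℂ) * A x w' :=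
    Finset.sum_congr rfl fun _ _ => mul_comm _ _
  rw [h3]
  ring

theorem tensE_apply (E : Matrix J J ℚ) (A : Matrix J J ℂ) (w w' : J) :
    (tens A (-A.transpose) *ᵥ cv (evec E)) (w, w') = (A * cx E - cx E * A) w w' := by
  rw [tens_mulVec]
  simp only [Matrix.neg_apply, Matrix.transpose_apply, cv, evec, Matrix.sub_apply,
    Matrix.mul_apply, cx, Matrix.map_apply, eq_ratCast, neg_mul, Finset.sum_neg_distrib]
  have h3 : ∑ x, A x w' * (E w x : ℂ) = ∑ x, (E w x : ℂ) * A x w' :=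
    Finset.sum_congr rfl fun _ _ => mul_comm _ _
  rw [h3]
  ring

theorem tensP_apply (Ψ : Matrix J J ℚ) (A : Matrix J J ℂ) (L : Matrix Unit Unit ℂ) (w w' : J) :
    (tens (tens (-A.transpose) (-A.transpose)) L *ᵥ cv (pvec Ψ)) ((w, w'), ()) =
      (L () () • cx Ψ - (A.transpose * cx Ψ + cx Ψ * A)) w w' := by
  rw [tens_mulVec]
  have h1 : ∀ (v : (J × J) × Unit → ℂ) (x : J × J),
      ∑ i, tens (-A.transpose) (-A.transpose) x i * v (i, ()) =
      (tens (-A.transpose) (-A.transpose) *ᵥ fun i => v (i, ())) x := fun _ _ => rfl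
  rw [h1, tens_mulVec]
  simp only [Matrix.neg_apply, Matrix.transpose_apply, cv, pvec, Matrix.sub_apply,
    Matrix.add_apply, Matrix.smul_apply, smul_eq_mul, Matrix.mul_apply, cx,
    Matrix.map_apply, eq_ratCast, neg_mul, Finset.sum_neg_distrib, Finset.univ_unique,
    Finset.sum_singleton]
  have h3 : ∑ x, A x w' * (Ψ w x : ℂ) = ∑ x, (Ψ w x : ℂ) * A x w' :=
    Finset.sum_congr rfl fun _ _ => mul_comm _ _
  rw [h3]
  have h4 : (default : Unit) = () := rfl
  rw [h4]
  ring

end vectors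

section pair

variable {V N : Obj} {κ : V.J → V.J → Matrix N.J N.J ℚ} {Ψ : Matrix N.J N.J ℚ}

/-- the relations satisfied by the logarithmic derivatives -/
structure Rel (V N : Obj) (κ : V.J → V.J → Matrix N.J N.J ℚ) (Ψ : Matrix N.J N.J ℚ)
    (X : Matrix V.J V.J ℂ) (l : ℂ) (A : Matrix N.J N.J ℂ) : Prop where
  k : ∀ a b, A * cx (κ a b) - cx (κ a b) * A =
    ∑ a', X a' a • cx (κ a' b) + ∑ b', X b' b • cx (κ a b')
  e : ∀ E : Matrix N.J N.J ℚ, cx E * N.P = N.P * cx E → A * cx E = cx E * A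
  p : A.transpose * cx Ψ + cx Ψ * A = l • cx Ψ

theorem Rel.right (hKS : KugaSatake V N κ Ψ) {X : Matrix V.J V.J ℂ} {l : ℂ}
    {A : Matrix N.J N.J ℂ} (h : Rel V N κ Ψ X l A) (hX : X = 0) (hl : l = 0) : A = 0 := by
  subst hX
  subst hl
  obtain ⟨y, hy⟩ := hKS.commutant A (fun a b => by
    have := h.k a b
    simp only [Matrix.zero_apply, zero_smul, Finset.sum_const_zero, add_zero] at this
    exact sub_eq_zero.1 this) h.e
  have h1 := h.p
  rw [hy, Matrix.transpose_smul, Matrix.transpose_one, Matrix.smul_mul, Matrix.one_mul,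
    Matrix.mul_smul, Matrix.mul_one, zero_smul, ← two_smul ℂ, smul_smul] at h1
  rcases smul_eq_zero.1 h1 with h2 | h2
  · have : y = 0 := by
      rcases mul_eq_zero.1 h2 with h3 | h3
      · exact absurd h3 two_ne_zero
      · exact h3
    rw [hy, this, zero_smul]
  · exfalso
    apply hKS.ne_zero
    apply cx_injective
    rw [h2]
    ext i j; simp [cx]

theorem Rel.left (hKS : KugaSatake V N κ Ψ) {X : Matrix V.J V.J ℂ} {l : ℂ}
    {A : Matrix N.J N.J ℂ} (h : Rel V N κ Ψ X l A) (hA : A = 0) : X = 0 ∧ l = 0 := by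
  subst hA
  constructor
  · refine hKS.faithful X fun a b => ?_
    rw [← h.k a b, Matrix.zero_mul, Matrix.mul_zero, sub_zero]
  · have h1 := h.p
    rw [Matrix.transpose_zero, Matrix.zero_mul, Matrix.mul_zero, add_zero] at h1
    rcases smul_eq_zero.1 h1.symm with h2 | h2
    · exact h2
    · exfalso
      apply hKS.ne_zero
      apply cx_injective
      rw [h2]
      ext i j; simp [cx]

/-- derivations satisfy the relations -/
theorem rel_of_der {𝓜 : Obj → Prop} (h𝓜 : IsTensorClass 𝓜) (hV : 𝓜 V) (hN : 𝓜 N)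
    (hKS : KugaSatake V N κ Ψ) (D : Derivation ℚ ℂ ℂ) :
    Rel V N κ Ψ (logDer ℚ V.c D) (logDer ℚ tate.c D () ()) (logDer ℚ N.c D) := by
  have hLV := isLD_self (D := D) (h𝓜.det V hV)
  have hLN := isLD_self (D := D) (h𝓜.det N hN)
  have hLT := isLD_self (D := D) (h𝓜.det tate h𝓜.tate)
  have hLV' := hLV.dual (h𝓜.det V hV)
  have hLN' := hLN.dual (h𝓜.det N hN)
  refine ⟨fun a b => ?_, fun E hE => ?_, ?_⟩
  · have h1 := IsLD.kills h𝓜 (M := (V.dual.tensor V.dual).tensor (N.tensor N.dual))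
      (h𝓜.tensor _ _ (h𝓜.tensor _ _ (h𝓜.dual _ hV) (h𝓜.dual _ hV))
        (h𝓜.tensor _ _ hN (h𝓜.dual _ hN)))
      ((hLV'.tens hLV').tens (hLN.tens hLN')) (kvec κ) (by
        funext x
        obtain ⟨⟨a, b⟩, ⟨w, w'⟩⟩ := x
        refine (onK_apply κ V.P N.P a b w w').trans ?_
        rw [hKS.hodge a b, sub_self]
        rfl)
    ext w w'
    have h2 := (onK_apply κ (logDer ℚ V.c D) (logDer ℚ N.c D) a b w w').symm.trans
      (congrFun h1 ((a, b), (w, w')))
    rw [Matrix.sub_apply] at h2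
    exact sub_eq_zero.1 h2
  · have h1 := IsLD.kills h𝓜 (M := N.tensor N.dual)
      (h𝓜.tensor _ _ hN (h𝓜.dual _ hN)) (hLN.tens hLN') (evec E) (by
        funext x
        obtain ⟨w, w'⟩ := x
        refine (tensE_apply E N.P w w').trans ?_
        rw [hE, sub_self]
        rfl)
    ext w w'
    have h2 := (tensE_apply E (logDer ℚ N.c D) w w').symm.trans (congrFun h1 (w, w'))
    rw [Matrix.sub_apply] at h2
    exact sub_eq_zero.1 h2
  · have h1 := IsLD.kills h𝓜 (M := (N.dual.tensor N.dual).tensor tate)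
      (h𝓜.tensor _ _ (h𝓜.tensor _ _ (h𝓜.dual _ hN) (h𝓜.dual _ hN)) h𝓜.tate)
      ((hLN'.tens hLN').tens hLT) (pvec Ψ) (by
        funext x
        obtain ⟨⟨w, w'⟩, ⟨⟩⟩ := x
        refine (tensP_apply Ψ N.P tate.P w w').trans ?_
        have h3 : tate.P () () = 1 := Matrix.one_apply_eq ()
        rw [hKS.polar, h3, one_smul, sub_self]
        rfl)
    ext w w'
    have h2 := (tensP_apply Ψ (logDer ℚ N.c D) (logDer ℚ tate.c D) w w').symm.trans
      (congrFun h1 ((w, w'), ()))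
    rw [Matrix.sub_apply] at h2
    exact (sub_eq_zero.1 h2).symm

end pair

end Pool.Agent.TH30.PD
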