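import Pool.Agent.TH30.PD.KS

/-!
Transcendence degree and Mumford-Tate group of a motive of K3 type and of its Kuga-Satake variety.
-/

set_option autoImplicit false
set_option linter.unusedSectionVars false
set_option linter.unusedSimpArgs false

open Matrix Algebra
open scoped Kronecker

namespace Pool.Agent.TH30.PD

/-- periods killed by all derivations over `F` -/
theorem trdeg_le_of_der (F : IntermediateField ℚ ℂ) (K : IntermediateField ℚ ℂ)
    [Algebra.IsAlgebraic ℚ K] {J : Type} [Fintype J] [DecidableEq J] (c : Matrix J J ℂ)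
    (h : ∀ D : Derivation F ℂ ℂ, ∀ s ∈ entries c, D s = 0) :
    Algebra.trdeg ℚ (periodField K c) ≤ Algebra.trdeg ℚ F := by
  set G := IntermediateField.adjoin F ((K : Set ℂ) ∪ entries c) with hG
  have h1 : Algebra.trdeg F G ≤ (0 : ℕ) := by
    refine trdeg_le (L := F) _ (⊥ : Submodule ℂ ℂ) 0 (by simp) 0 (fun D => by simp)
      fun D _ s hs => ?_
    rcases hs with hs | hs
    · refine der_algebraic D ?_
      have h1 := Algebra.IsAlgebraic.isAlgebraic (R := ℚ) (⟨s, hs⟩ : K)
      exact (h1.algebraMap (A := ℂ)).tower_top F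
    · exact h D s hs
  have h2 : Algebra.trdeg F G = 0 := by
    refine le_antisymm ?_ zero_le
    simpa using h1
  have hsum : Algebra.trdeg ℚ F + Algebra.trdeg F G = Algebra.trdeg ℚ G :=
    trdeg_add_eq ℚ F (A := G)
  rw [h2, add_zero] at hsum
  rw [hsum]
  have hle : periodField K c ≤ G.restrictScalars ℚ := by
    rw [periodField, IntermediateField.adjoin_le_iff]
    exact IntermediateField.subset_adjoin F _
  exact trdeg_le_of_injective (IntermediateField.inclusion hle)
    (IntermediateField.inclusion hle).injective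

section main

variable {V N : Obj} {κ : V.J → V.J → Matrix N.J N.J ℚ} {Ψ : Matrix N.J N.J ℚ}

theorem entries_left {I J : Type} [Fintype I] [DecidableEq I] [Fintype J] [DecidableEq J]
    (c : Matrix I I ℂ) (d : Matrix J J ℂ) : entries c ⊆ entries (Matrix.fromBlocks c 0 0 d) := by
  rintro _ ⟨⟨i, j⟩, rfl⟩
  exact ⟨(Sum.inl i, Sum.inl j), rfl⟩

theorem entries_right {I J : Type} [Fintype I] [DecidableEq I] [Fintype J] [DecidableEq J]
    (c : Matrix I I ℂ) (d : Matrix J J ℂ) : entries d ⊆ entries (Matrix.fromBlocks c 0 0 d) := by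
  rintro _ ⟨⟨i, j⟩, rfl⟩
  exact ⟨(Sum.inr i, Sum.inr j), rfl⟩

theorem trdeg_eq_KS {𝓜 : Obj → Prop} (h𝓜 : IsTensorClass 𝓜) (hV : 𝓜 V) (hN : 𝓜 N)
    (hKS : KugaSatake V N κ Ψ) (K : IntermediateField ℚ ℂ) [Algebra.IsAlgebraic ℚ K] :
    Algebra.trdeg ℚ (periodField K (V.sum tate).c) = Algebra.trdeg ℚ (periodField K N.c) := by
  apply le_antisymm
  · refine trdeg_le_of_der _ K _ fun D => ?_
    have hrel := rel_of_der h𝓜 hV hN hKS (down D)
    have h0 : logDer ℚ N.c (down D) = 0 := logDer_of_kills fun s hs =>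
      down_mem D (IntermediateField.subset_adjoin ℚ _ (Or.inr hs))
    obtain ⟨h1, h2⟩ := hrel.left hKS h0
    have h3 : logDer ℚ tate.c (down D) = 0 := by
      ext i j
      exact h2
    rintro _ ⟨⟨i, j⟩, rfl⟩
    rcases i with i | i <;> rcases j with j | j
    · exact logDer_zero (h𝓜.det V hV) h1 _ (mem_entries V.c i j)
    · exact map_zero D
    · exact map_zero D
    · exact logDer_zero (h𝓜.det tate h𝓜.tate) h3 _ (mem_entries tate.c i j)
  · refine trdeg_le_of_der _ K _ fun D => ?_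
    have hrel := rel_of_der h𝓜 hV hN hKS (down D)
    have hX : logDer ℚ V.c (down D) = 0 := logDer_of_kills fun s hs =>
      down_mem D (IntermediateField.subset_adjoin ℚ _ (Or.inr (entries_left V.c tate.c hs)))
    have hT : logDer ℚ tate.c (down D) = 0 := logDer_of_kills fun s hs =>
      down_mem D (IntermediateField.subset_adjoin ℚ _ (Or.inr (entries_right V.c tate.c hs)))
    have h1 := hrel.right hKS hX (by rw [hT]; rfl)
    intro s hs
    exact logDer_zero (h𝓜.det N hN) h1 s hs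

/-- the rational relations -/
structure RelQ (V N : Obj) (κ : V.J → V.J → Matrix N.J N.J ℚ) (Ψ : Matrix N.J N.J ℚ)
    (X : Matrix V.J V.J ℚ) (l : ℚ) (A : Matrix N.J N.J ℚ) : Prop where
  k : onK X A *ᵥ kvec κ = 0
  e : ∀ E : Matrix N.J N.J ℚ, cx E * N.P = N.P * cx E → A * E = E * A
  p : A.transpose * Ψ + Ψ * A = l • Ψ

theorem onK_cx {I J : Type} [Fintype I] [DecidableEq I] [Fintype J] [DecidableEq J]
    (X : Matrix I I ℚ) (A : Matrix J J ℚ) : onK (cx X) (cx A) = cx (onK X A) := by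
  have h1 : ∀ {I : Type} (Z : Matrix I I ℚ), -(cx Z).transpose = cx (-Z.transpose) := by
    intro I Z; ext i j; simp [cx]
  rw [onK, onK, h1, h1, tens_cx, tens_cx, tens_cx]

theorem RelQ.rel {X : Matrix V.J V.J ℚ} {l : ℚ} {A : Matrix N.J N.J ℚ}
    (h : RelQ V N κ Ψ X l A) : Rel V N κ Ψ (cx X) (l : ℂ) (cx A) := by
  refine ⟨fun a b => ?_, fun E hE => ?_, ?_⟩
  · have h1 : onK (cx X) (cx A) *ᵥ cv (kvec κ) = 0 := by
      rw [onK_cx, cx_mulVec, h.k]
      funext x; simp [cv]
    ext w w'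
    have h2 := (onK_apply κ (cx X) (cx A) a b w w').symm.trans (congrFun h1 ((a, b), (w, w')))
    rw [Matrix.sub_apply] at h2
    exact sub_eq_zero.1 h2
  · rw [← cx_mul, ← cx_mul, h.e E hE]
  · have h1 := congrArg cx h.p
    rw [cx_add, cx_mul, cx_mul, cx_smul] at h1
    exact h1

theorem onK_comm {I J : Type} [Fintype I] [DecidableEq I] [Fintype J] [DecidableEq J]
    (X X' : Matrix I I ℚ) (A A' : Matrix J J ℚ) :
    onK (X * X' - X' * X) (A * A' - A' * A) = onK X A * onK X' A' - onK X' A' * onK X A := by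
  rw [onK, neg_transpose_comm, neg_transpose_comm, tens_comm, tens_comm, tens_comm]
  rfl

theorem onK_add {I J : Type} [Fintype I] [DecidableEq I] [Fintype J] [DecidableEq J]
    (X X' : Matrix I I ℚ) (A A' : Matrix J J ℚ) :
    onK (X + X') (A + A') = onK X A + onK X' A' := by
  rw [onK, Matrix.transpose_add, Matrix.transpose_add, neg_add, neg_add, tens_add, tens_add,
    tens_add]
  rfl

theorem onK_smul {I J : Type} [Fintype I] [DecidableEq I] [Fintype J] [DecidableEq J] (r : ℚ)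
    (X : Matrix I I ℚ) (A : Matrix J J ℚ) : onK (r • X) (r • A) = r • onK X A := by
  rw [onK, Matrix.transpose_smul, Matrix.transpose_smul, ← smul_neg, ← smul_neg, tens_smul,
    tens_smul, tens_smul]
  rfl

theorem RelQ.comm {X X' : Matrix V.J V.J ℚ} {l l' : ℚ} {A A' : Matrix N.J N.J ℚ}
    (h : RelQ V N κ Ψ X l A) (h' : RelQ V N κ Ψ X' l' A') :
    RelQ V N κ Ψ (X * X' - X' * X) 0 (A * A' - A' * A) := by
  refine ⟨?_, fun E hE => ?_, ?_⟩
  · rw [onK_comm, Matrix.sub_mulVec, ← Matrix.mulVec_mulVec, ← Matrix.mulVec_mulVec, h.k, h'.k,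
      Matrix.mulVec_zero, Matrix.mulVec_zero, sub_zero]
  · have e1 := h.e E hE
    have e2 := h'.e E hE
    rw [Matrix.sub_mul, Matrix.mul_sub, Matrix.mul_assoc, e2, ← Matrix.mul_assoc, e1,
      Matrix.mul_assoc, Matrix.mul_assoc A', e1, ← Matrix.mul_assoc A', e2, Matrix.mul_assoc E A' A]
  · have e1 : A.transpose * Ψ = l • Ψ - Ψ * A := eq_sub_of_add_eq h.p
    have e2 : A'.transpose * Ψ = l' • Ψ - Ψ * A' := eq_sub_of_add_eq h'.p
    have e3 : A'.transpose * (A.transpose * Ψ) =
        l • (l' • Ψ - Ψ * A') - (l' • Ψ - Ψ * A') * A := by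
      rw [e1, Matrix.mul_sub, Matrix.mul_smul, e2, ← Matrix.mul_assoc, e2]
    have e4 : A.transpose * (A'.transpose * Ψ) =
        l' • (l • Ψ - Ψ * A) - (l • Ψ - Ψ * A) * A' := by
      rw [e2, Matrix.mul_sub, Matrix.mul_smul, e1, ← Matrix.mul_assoc, e1]
    rw [Matrix.transpose_sub, Matrix.transpose_mul, Matrix.transpose_mul, Matrix.sub_mul,
      Matrix.mul_assoc, Matrix.mul_assoc, e3, e4, Matrix.mul_sub, zero_smul]
    simp only [Matrix.sub_mul, Matrix.smul_mul, smul_sub, smul_smul, Matrix.mul_assoc]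
    rw [mul_comm l' l]
    abel

/-- the graph -/
def graph (V N : Obj) (κ : V.J → V.J → Matrix N.J N.J ℚ) (Ψ : Matrix N.J N.J ℚ) :
    Submodule ℚ (Matrix (V.J ⊕ Unit) (V.J ⊕ Unit) ℚ × Matrix N.J N.J ℚ) where
  carrier := {x | ∃ (X : Matrix V.J V.J ℚ) (L : Matrix Unit Unit ℚ),
    x.1 = Matrix.fromBlocks X 0 0 L ∧ RelQ V N κ Ψ X (L () ()) x.2}
  add_mem' := by
    rintro ⟨_, A⟩ ⟨_, A'⟩ ⟨X, L, rfl, h⟩ ⟨X', L', rfl, h'⟩
    refine ⟨X + X', L + L', ?_, ?_, ?_, ?_⟩
    · show Matrix.fromBlocks X 0 0 L + Matrix.fromBlocks X' 0 0 L' = _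
      rw [Matrix.fromBlocks_add]
      simp
    · show onK (X + X') (A + A') *ᵥ kvec κ = 0
      rw [onK_add, Matrix.add_mulVec, h.k, h'.k, add_zero]
    · intro E hE
      show (A + A') * E = E * (A + A')
      have e1 : A * E = E * A := h.e E hE
      have e2 : A' * E = E * A' := h'.e E hE
      rw [Matrix.add_mul, Matrix.mul_add, e1, e2]
    · show (A + A').transpose * Ψ + Ψ * (A + A') = (L () () + L' () ()) • Ψ
      have e1 : A.transpose * Ψ + Ψ * A = L () () • Ψ := h.p
      have e2 : A'.transpose * Ψ + Ψ * A' = L' () () • Ψ := h'.p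
      rw [Matrix.transpose_add, Matrix.add_mul, Matrix.mul_add, add_smul, ← e1, ← e2]
      abel
  zero_mem' := by
    refine ⟨0, 0, by simp, ?_, ?_, ?_⟩
    · show onK 0 0 *ᵥ kvec κ = 0
      have : onK (0 : Matrix V.J V.J ℚ) (0 : Matrix N.J N.J ℚ) = 0 := by
        have := onK_smul (0 : ℚ) (0 : Matrix V.J V.J ℚ) (0 : Matrix N.J N.J ℚ)
        simpa using this
      rw [this, Matrix.zero_mulVec]
    · intro E hE
      show (0 : Matrix N.J N.J ℚ) * E = E * 0
      rw [Matrix.zero_mul, Matrix.mul_zero]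
    · show (0 : Matrix N.J N.J ℚ).transpose * Ψ + Ψ * 0 = (0 : ℚ) • Ψ
      simp
  smul_mem' := by
    rintro r ⟨_, A⟩ ⟨X, L, rfl, h⟩
    refine ⟨r • X, r • L, ?_, ?_, ?_, ?_⟩
    · show r • Matrix.fromBlocks X 0 0 L = _
      rw [Matrix.fromBlocks_smul]
      simp
    · show onK (r • X) (r • A) *ᵥ kvec κ = 0
      have e1 : onK X A *ᵥ kvec κ = 0 := h.k
      rw [onK_smul, Matrix.smul_mulVec, e1, smul_zero]
    · intro E hE
      show (r • A) * E = E * (r • A)
      have e1 : A * E = E * A := h.e E hE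
      rw [Matrix.smul_mul, Matrix.mul_smul, e1]
    · show (r • A).transpose * Ψ + Ψ * (r • A) = (r • L () ()) • Ψ
      have e1 : A.transpose * Ψ + Ψ * A = L () () • Ψ := h.p
      rw [Matrix.transpose_smul, Matrix.smul_mul, Matrix.mul_smul, ← smul_add, e1, smul_smul,
        smul_eq_mul]

theorem isLie_graph (V N : Obj) (κ : V.J → V.J → Matrix N.J N.J ℚ) (Ψ : Matrix N.J N.J ℚ) :
    IsLie (graph V N κ Ψ) := by
  rintro ⟨_, A⟩ ⟨X, L, rfl, h⟩ ⟨_, A'⟩ ⟨X', L', rfl, h'⟩
  refine ⟨X * X' - X' * X, 0, ?_, ?_⟩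
  · show Matrix.fromBlocks X 0 0 L * Matrix.fromBlocks X' 0 0 L' -
      Matrix.fromBlocks X' 0 0 L' * Matrix.fromBlocks X 0 0 L = _
    rw [Matrix.fromBlocks_multiply, Matrix.fromBlocks_multiply]
    have hL : L * L' = L' * L := by
      ext ⟨⟩ ⟨⟩
      simp [Matrix.mul_apply, mul_comm]
    simp only [Matrix.mul_zero, Matrix.zero_mul, add_zero, zero_add]
    rw [hL]
    ext i j
    rcases i with i | i <;> rcases j with j | j <;> simp
  · exact RelQ.comm h h'

theorem finrank_eq_KS (hKS : KugaSatake V N κ Ψ) :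
    Module.finrank ℚ (lieMT (V.sum tate).P) = Module.finrank ℚ (lieMT N.P) := by
  refine finrank_lieMT_eq (Matrix.fromBlocks V.P 0 0 tate.P) N.P (graph V N κ Ψ)
    (isLie_graph V N κ Ψ) (fun φ => ?_) (fun Z hZ => ?_) (fun Y hY => ?_)
  · refine ⟨V.P.map φ, tate.P.map φ, ?_, ?_, fun E hE => ?_, ?_⟩
    · show (Matrix.fromBlocks V.P 0 0 tate.P).map φ = _
      rw [Matrix.fromBlocks_map]
      congr 1
      · ext i j; exact map_zero φ
      · ext i j; exact map_zero φ
    · have h1 : onK V.P N.P *ᵥ cv (kvec κ) = 0 := by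
        funext x
        obtain ⟨⟨a, b⟩, ⟨w, w'⟩⟩ := x
        refine (onK_apply κ V.P N.P a b w w').trans ?_
        rw [hKS.hodge a b, sub_self]
        rfl
      have h2 : onK (V.P.map φ) (N.P.map φ) = (onK V.P N.P).map φ := by
        rw [onK, onK, neg_transpose_map, neg_transpose_map, tens_map, tens_map, tens_map]
      rw [h2]
      exact mulVec_map φ _ _ h1
    · have h3 : (cx E * N.P).map φ = (N.P * cx E).map φ := by rw [hE]
      have h4 : (cx E * N.P).map φ = E * N.P.map φ := by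
        ext i j
        simp only [Matrix.map_apply, Matrix.mul_apply, map_sum, cx]
        refine Finset.sum_congr rfl fun k _ => ?_
        rw [show (Rat.castHom ℂ) (E i k) * N.P k j = (E i k) • N.P k j from by
          rw [Rat.smul_def]; rfl, map_smul, smul_eq_mul]
      have h5 : (N.P * cx E).map φ = N.P.map φ * E := by
        ext i j
        simp only [Matrix.map_apply, Matrix.mul_apply, map_sum, cx]
        refine Finset.sum_congr rfl fun k _ => ?_
        rw [mul_comm (N.P i k), show (Rat.castHom ℂ) (E k j) * N.P i k = (E k j) • N.P i k from by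
          rw [Rat.smul_def]; rfl, map_smul, smul_eq_mul, mul_comm]
      rw [h4, h5] at h3
      exact h3.symm
    · ext i j
      have h6 := congrArg φ (congrFun (congrFun hKS.polar i) j)
      simp only [Matrix.add_apply, Matrix.mul_apply, map_add, map_sum, cx, Matrix.map_apply,
        Matrix.transpose_apply] at h6
      simp only [Matrix.add_apply, Matrix.mul_apply, Matrix.transpose_apply, Matrix.map_apply,
        Matrix.smul_apply, smul_eq_mul]
      have h7 : φ ((Rat.castHom ℂ) (Ψ i j)) = φ 1 * Ψ i j := by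
        rw [show (Rat.castHom ℂ) (Ψ i j) = (Ψ i j) • (1 : ℂ) from by
          rw [Rat.smul_def, mul_one]; rfl, map_smul, smul_eq_mul, mul_comm]
      have h8 : tate.P () () = 1 := Matrix.one_apply_eq ()
      rw [h7] at h6
      rw [h8, ← h6]
      congr 1
      · refine Finset.sum_congr rfl fun k _ => ?_
        rw [mul_comm (N.P k i), show (Rat.castHom ℂ) (Ψ k j) * N.P k i = (Ψ k j) • N.P k i from by
          rw [Rat.smul_def]; rfl, map_smul, smul_eq_mul, mul_comm]
      · refine Finset.sum_congr rfl fun k _ => ?_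
        rw [show (Rat.castHom ℂ) (Ψ i k) * N.P k j = (Ψ i k) • N.P k j from by
          rw [Rat.smul_def]; rfl, map_smul, smul_eq_mul]
  · obtain ⟨X, L, h1, h2⟩ := hZ
    have h3 := Rel.left hKS h2.rel (by ext i j; simp [cx])
    have h4 : X = 0 := cx_injective (by rw [h3.1]; ext i j; simp [cx])
    have h5 : L = 0 := by
      ext ⟨⟩ ⟨⟩
      have := h3.2
      exact_mod_cast this
    have h6 : Z = Matrix.fromBlocks X 0 0 L := h1
    rw [h6, h4, h5, Matrix.fromBlocks_zero]
    rfl
  · obtain ⟨X, L, h1, h2⟩ := hY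
    have h3 : (0 : Matrix (V.J ⊕ Unit) (V.J ⊕ Unit) ℚ) = Matrix.fromBlocks X 0 0 L := h1
    rw [← Matrix.fromBlocks_zero] at h3
    obtain ⟨e1, -, -, e2⟩ := Matrix.fromBlocks_inj.1 h3
    have h4 := Rel.right hKS h2.rel (by rw [← e1]; ext i j; simp [cx]) (by rw [← e2]; simp)
    exact cx_injective (by rw [h4]; ext i j; simp [cx])

end main

end Pool.Agent.TH30.PD
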