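import Pool.Agent.TH30.PD.Tens
import Pool.Agent.W602.GT.Der

/-!
Derivations of the complex numbers and transcendence degrees of fields generated by periods.
-/

set_option autoImplicit false
set_option linter.unusedSectionVars false

open Matrix

namespace Pool.Agent.TH30.PD

variable {J : Type} [Fintype J] [DecidableEq J]

/-- derivations of `ℂ` over `L` kill the numbers algebraic over `L` -/
theorem der_algebraic {L : Type} [Field L] [CharZero L] [Algebra L ℂ] (D : Derivation L ℂ ℂ)
    {x : ℂ} (hx : IsAlgebraic L x) : D x = 0 := by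
  have h1 := D.map_aeval (minpoly L x) x
  rw [minpoly.aeval, map_zero] at h1
  have h2 : Polynomial.aeval x (Polynomial.derivative (minpoly L x)) ≠ 0 := by
    refine (Polynomial.Separable.aeval_derivative_ne_zero ?_ (minpoly.aeval L x))
    exact (minpoly.irreducible hx.isIntegral).separable
  rcases smul_eq_zero.1 h1.symm with h | h
  · exact absurd h h2
  · exact h

/-- a derivation over a subfield, as a derivation over `ℚ` -/
noncomputable def down {F : IntermediateField ℚ ℂ} (D : Derivation F ℂ ℂ) : Derivation ℚ ℂ ℂ :=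
  D.restrictScalars ℚ

theorem down_apply {F : IntermediateField ℚ ℂ} (D : Derivation F ℂ ℂ) (x : ℂ) :
    down D x = D x := rfl

theorem down_mem {F : IntermediateField ℚ ℂ} (D : Derivation F ℂ ℂ) {x : ℂ} (hx : x ∈ F) :
    down D x = 0 := D.map_algebraMap (⟨x, hx⟩ : F)

/-- the derivations over `L` restricted to `S` depend on at most `r` parameters: then the
transcendence degree is at most `r` -/
theorem trdeg_le {L : Type} [Field L] [CharZero L] [Algebra L ℂ] (S : Set ℂ) {V : Type}
    [AddCommGroup V] [Module ℂ V] (U : Submodule ℂ V) [FiniteDimensional ℂ U] (r : ℕ)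
    (hU : Module.finrank ℂ U ≤ r) (Φ : Derivation L ℂ ℂ →ₗ[ℂ] V) (hΦ : ∀ D, Φ D ∈ U)
    (h0 : ∀ D, Φ D = 0 → ∀ s ∈ S, D s = 0) :
    Algebra.trdeg L (IntermediateField.adjoin L S) ≤ r := by
  classical
  set G := IntermediateField.adjoin L S with hG
  obtain ⟨y, hy⟩ := exists_isTranscendenceBasis L G
  rw [← hy.cardinalMk_eq_trdeg]
  by_contra hlt
  rw [not_le] at hlt
  obtain ⟨e⟩ : Nonempty (Fin (r + 1) ↪ y) := by
    rw [← Cardinal.le_def, Cardinal.mk_fin]
    exact_mod_cast Cardinal.natCast_add_one_le_iff.2 hlt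
  -- independent elements of `ℂ`
  let z : Fin (r + 1) → ℂ := fun i => ((e i : y) : G)
  have hz : AlgebraicIndependent L z := by
    have h1 : AlgebraicIndependent L fun i => ((e i : y) : G) := hy.1.comp e e.injective
    exact h1.map' (f := G.val) G.val.injective
  have hzG : ∀ i, z i ∈ G := fun i => ((e i : y) : G).2
  obtain ⟨B, hzB, hB⟩ := exists_isTranscendenceBasis_superset (s := Set.range z)
    (hz.coe_range)
  have hz_inj : Function.Injective z := hz.injective
  have hex : ∀ i, ∃ D : Derivation L ℂ ℂ, ∀ j, D (z j) = if j = i then 1 else 0 := by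
    intro i
    obtain ⟨D, hD⟩ := Pool.Agent.W602.GT.exists_der (L := L) (K := ℂ) (fun b : B => (b : ℂ)) hB
      (fun b => if (b : ℂ) = z i then 1 else 0)
    refine ⟨D, fun j => ?_⟩
    have h1 := hD ⟨z j, hzB (Set.mem_range_self j)⟩
    simp only at h1
    rw [h1]
    by_cases h : j = i
    · rw [if_pos h, if_pos (by rw [h])]
    · rw [if_neg h, if_neg fun h' => h (hz_inj h')]
  choose D hD using hex
  -- a relation
  have hdep : ¬ LinearIndependent ℂ fun i => (⟨Φ (D i), hΦ (D i)⟩ : U) := by
    intro hli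
    have := hli.fintype_card_le_finrank
    rw [Fintype.card_fin] at this
    omega
  rw [Fintype.linearIndependent_iff] at hdep
  push Not at hdep
  obtain ⟨β, hβ, j, hj⟩ := hdep
  have hβ' : ∑ i, β i • Φ (D i) = 0 := by
    have := congrArg (Submodule.subtype U) hβ
    simpa using this
  let E : Derivation L ℂ ℂ := ∑ i, β i • D i
  have hE : Φ E = 0 := by
    rw [map_sum]
    simpa using hβ'
  have hES := h0 E hE
  have hEG : ∀ x ∈ G, E x = 0 := by
    have hle : G ≤ Pool.Agent.W602.GT.consts E := by
      rw [hG, IntermediateField.adjoin_le_iff]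
      exact fun s hs => hES s hs
    exact fun x hx => hle hx
  have h1 := hEG (z j) (hzG j)
  have h2 : E (z j) = β j := by
    have h3 : ∀ (s : Finset (Fin (r + 1))) (x : ℂ), (∑ i ∈ s, β i • D i : Derivation L ℂ ℂ) x =
        ∑ i ∈ s, β i * D i x := by
      intro s x
      induction s using Finset.induction_on with
      | empty => simp
      | insert a s ha ih =>
        rw [Finset.sum_insert ha, Finset.sum_insert ha, Derivation.add_apply, ih,
          Derivation.smul_apply, smul_eq_mul]
    rw [h3, Finset.sum_eq_single j]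
    · rw [hD, if_pos rfl, mul_one]
    · intro i _ hi
      rw [hD, if_neg (Ne.symm hi), mul_zero]
    · intro h
      exact absurd (Finset.mem_univ _) h
  exact hj (h2 ▸ h1)

/-- the entries of a matrix -/
def entries (c : Matrix J J ℂ) : Set ℂ := Set.range fun x : J × J => c x.1 x.2

theorem mem_entries (c : Matrix J J ℂ) (i j : J) : c i j ∈ entries c := ⟨(i, j), rfl⟩

/-- the logarithmic derivative -/
noncomputable def logDer (L : Type) [Field L] [Algebra L ℂ] (c : Matrix J J ℂ) :
    Derivation L ℂ ℂ →ₗ[ℂ] Matrix J J ℂ where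
  toFun D := c.map D * c⁻¹
  map_add' D E := by
    rw [← add_mul]
    congr 1
  map_smul' z D := by
    rw [RingHom.id_apply, ← smul_mul_assoc]
    congr 1

theorem logDer_apply {L : Type} [Field L] [Algebra L ℂ] (c : Matrix J J ℂ)
    (D : Derivation L ℂ ℂ) : logDer L c D = c.map D * c⁻¹ := rfl

theorem logDer_mul {L : Type} [Field L] [Algebra L ℂ] {c : Matrix J J ℂ} (hc : IsUnit c.det)
    (D : Derivation L ℂ ℂ) : logDer L c D * c = c.map D := by
  rw [logDer_apply, Matrix.mul_assoc, Matrix.nonsing_inv_mul c hc, Matrix.mul_one]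

theorem logDer_zero {L : Type} [Field L] [Algebra L ℂ] {c : Matrix J J ℂ} (hc : IsUnit c.det)
    {D : Derivation L ℂ ℂ} (h : logDer L c D = 0) : ∀ s ∈ entries c, D s = 0 := by
  rintro _ ⟨⟨i, j⟩, rfl⟩
  have h1 := logDer_mul hc D
  rw [h, Matrix.zero_mul] at h1
  exact (congrFun (congrFun h1 i) j).symm

theorem logDer_of_kills {L : Type} [Field L] [Algebra L ℂ] {c : Matrix J J ℂ}
    {D : Derivation L ℂ ℂ} (h : ∀ s ∈ entries c, D s = 0) : logDer L c D = 0 := by
  rw [logDer_apply]
  have : c.map D = 0 := by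
    ext i j
    exact h _ (mem_entries c i j)
  rw [this, Matrix.zero_mul]

theorem logDer_down {F : IntermediateField ℚ ℂ} (c : Matrix J J ℂ) (D : Derivation F ℂ ℂ) :
    logDer ℚ c (down D) = logDer F c D := rfl

/-- the derivative of the dual comparison -/
theorem map_inv_transpose {L : Type} [Field L] [Algebra L ℂ] {c : Matrix J J ℂ}
    (hc : IsUnit c.det) (D : Derivation L ℂ ℂ) :
    (-(logDer L c D).transpose) * (c⁻¹).transpose = ((c⁻¹).transpose).map D := by
  have hmul : ∀ A B : Matrix J J ℂ, (A * B).map D = A.map D * B + A * B.map D := by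
    intro A B
    ext i j
    simp only [Matrix.map_apply, Matrix.mul_apply, Matrix.add_apply, map_sum, D.leibniz,
      smul_eq_mul, Finset.sum_add_distrib]
    rw [add_comm]
    congr 1
    refine Finset.sum_congr rfl fun l _ => ?_
    ring
  have h1 : (c⁻¹ * c).map D = 0 := by
    rw [Matrix.nonsing_inv_mul c hc]
    ext i j
    rw [Matrix.map_apply, Matrix.one_apply]
    split_ifs <;> simp
  rw [hmul] at h1
  have h2 : (c⁻¹).map D = -(c⁻¹ * c.map D * c⁻¹) := by
    have h3 : (c⁻¹).map D * c = -(c⁻¹ * c.map D) := eq_neg_of_add_eq_zero_left h1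
    calc (c⁻¹).map D = (c⁻¹).map D * c * c⁻¹ := by
          rw [Matrix.mul_assoc, Matrix.mul_nonsing_inv c hc, Matrix.mul_one]
      _ = _ := by rw [h3, Matrix.neg_mul]
  have h4 : ((c⁻¹).transpose).map D = ((c⁻¹).map D).transpose := rfl
  rw [h4, h2, Matrix.neg_mul, Matrix.transpose_neg, logDer_apply, ← Matrix.transpose_mul,
    Matrix.mul_assoc]

/-- the logarithmic derivative kills the rational tensors which are algebraic on the de Rham
side -/
theorem kills {L : Type} [Field L] [CharZero L] [Algebra ℚ L] [Algebra L ℂ]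
    [IsScalarTower ℚ L ℂ] {k : ℕ} (c X : Matrix J J ℂ) (D : Derivation L ℂ ℂ)
    (hX : X * c = c.map D) (f : (Fin k → J) → ℂ) (hf : ∀ i, IsAlgebraic ℚ (f i))
    (g : (Fin k → J) → ℂ) (hg : ∀ i, IsAlgebraic ℚ (g i)) (h : tra c g = f) : act X f = 0 := by
  funext i
  rw [← h, ← der_tra D c X hX g (fun j => der_algebraic D ((hg j).tower_top L)) i, h]
  exact der_algebraic D ((hf i).tower_top L)

end Pool.Agent.TH30.PD
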