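import Pool.Agent.TH30.PD.Span
import Pool.Agent.TH30.PD.Trdeg

/-!
Realisations of motives: period matrices and Hodge structures.
-/

set_option autoImplicit false
set_option linter.unusedSectionVars false

open Matrix

namespace Pool.Agent.TH30.PD

/-- The realisations of a motive over a field of algebraic numbers, in coordinates: a basis of the
Betti realisation indexed by `J`, the period matrix `c` (de Rham coordinates to Betti coordinates)
and the operator `P` of the Betti realisation tensor `ℂ` which acts as `p` on `H^{p,q}`. -/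
structure Obj where
  /-- the index type of the bases -/
  J : Type
  [ft : Fintype J]
  [de : DecidableEq J]
  /-- the period matrix -/
  c : Matrix J J ℂ
  /-- the Hodge operator -/
  P : Matrix J J ℂ

attribute [instance] Obj.ft Obj.de

/-- the complex conjugate of a matrix -/
noncomputable def cj {I : Type} (X : Matrix I I ℂ) : Matrix I I ℂ := X.map (starRingEnd ℂ)

/-- direct sum -/
def Obj.sum (M N : Obj) : Obj where
  J := M.J ⊕ N.J
  c := Matrix.fromBlocks M.c 0 0 N.c
  P := Matrix.fromBlocks M.P 0 0 N.P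

/-- dual -/
noncomputable def Obj.dual (M : Obj) : Obj where
  J := M.J
  c := (M.c⁻¹).transpose
  P := -M.P.transpose

/-- `P` is the Hodge operator of a rational Hodge structure: over `ℂ` there is a basis of common
eigenvectors of `P` and of its conjugate, with integral eigenvalues `p`, `q`, and the weight
operator `p + q` is rational. -/
def IsHodge {J : Type} [Fintype J] [DecidableEq J] (P : Matrix J J ℂ) : Prop :=
  ∃ (g : Matrix J J ℂ) (p q : J → ℤ), IsUnit g.det ∧
    P * g = g * Matrix.diagonal (fun j => (p j : ℂ)) ∧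
    cj P * g = g * Matrix.diagonal (fun j => (q j : ℂ)) ∧
    ∃ W : Matrix J J ℚ, P + cj P = cx W

/-- A class of motives over fields of algebraic numbers, closed under sums and duals, on which
Hodge classes are defined over the algebraic numbers in de Rham cohomology. -/
structure IsClass (𝓜 : Obj → Prop) : Prop where
  sum : ∀ M N, 𝓜 M → 𝓜 N → 𝓜 (M.sum N)
  dual : ∀ M, 𝓜 M → 𝓜 M.dual
  det : ∀ M, 𝓜 M → IsUnit M.c.det
  hodge : ∀ M, 𝓜 M → IsHodge M.P
  tensors : ∀ M, 𝓜 M → ∀ (k : ℕ) (f : (Fin k → M.J) → ℚ), act M.P (ext f) = 0 →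
    ∃ g : (Fin k → M.J) → ℂ, (∀ i, IsAlgebraic ℚ (g i)) ∧ tra M.c g = ext f

/-- the Lie algebra of the Mumford-Tate group: the rational endomorphisms which kill all rational
tensors (of all mixed types) of Hodge type `(0,0)` -/
def mt {J : Type} [Fintype J] [DecidableEq J] (P : Matrix J J ℂ) : Submodule ℚ (Matrix J J ℚ) where
  carrier := {X | ∀ (k : ℕ) (f : (Fin k → J ⊕ J) → ℚ), act (sharp P) (ext f) = 0 →
    act (sharp X) f = 0}
  add_mem' := by
    intro X Y hX hY k f hf
    rw [sharp_add, act_add_left, hX k f hf, hY k f hf, add_zero]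
  zero_mem' := by
    intro k f _
    have : sharp (0 : Matrix J J ℚ) = 0 := by simp [sharp]
    rw [this, act_zero_left]
  smul_mem' := by
    intro r X hX k f hf
    rw [sharp_smul, act_smul_left, hX k f hf, smul_zero]

/-- the complex endomorphisms which kill all Hodge tensors -/
def mtC {J : Type} [Fintype J] [DecidableEq J] (P : Matrix J J ℂ) : Submodule ℂ (Matrix J J ℂ) where
  carrier := {X | ∀ (k : ℕ) (f : (Fin k → J ⊕ J) → ℚ), act (sharp P) (ext f) = 0 →
    act (sharp X) (ext f) = 0}
  add_mem' := by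
    intro X Y hX hY k f hf
    rw [sharp_add, act_add_left, hX k f hf, hY k f hf, add_zero]
  zero_mem' := by
    intro k f _
    have : sharp (0 : Matrix J J ℂ) = 0 := by simp [sharp]
    rw [this, act_zero_left]
  smul_mem' := by
    intro r X hX k f hf
    rw [sharp_smul, act_smul_left, hX k f hf, smul_zero]

section lemmas

variable {J : Type} [Fintype J] [DecidableEq J]

theorem cj_add (X Y : Matrix J J ℂ) : cj (X + Y) = cj X + cj Y := by
  ext i j; simp [cj]

theorem cj_sub (X Y : Matrix J J ℂ) : cj (X - Y) = cj X - cj Y := by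
  ext i j; simp [cj]

theorem cj_smul (z : ℂ) (X : Matrix J J ℂ) : cj (z • X) = (starRingEnd ℂ z) • cj X := by
  ext i j; simp [cj]

theorem cj_cj (X : Matrix J J ℂ) : cj (cj X) = X := by
  ext i j; simp [cj]

theorem cj_cx (X : Matrix J J ℚ) : cj (cx X) = cx X := by
  ext i j; simp [cj, cx]

theorem cj_mul (X Y : Matrix J J ℂ) : cj (X * Y) = cj X * cj Y := by
  rw [cj, Matrix.map_mul]; rfl

theorem cx_add (X Y : Matrix J J ℚ) : cx (X + Y) = cx X + cx Y := by
  ext i j; simp [cx]

theorem cx_sub (X Y : Matrix J J ℚ) : cx (X - Y) = cx X - cx Y := by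
  ext i j; simp [cx]

theorem cx_smul (r : ℚ) (X : Matrix J J ℚ) : cx (r • X) = (r : ℂ) • cx X := by
  ext i j; simp [cx]

theorem cx_mul (X Y : Matrix J J ℚ) : cx (X * Y) = cx X * cx Y := by
  rw [cx, Matrix.map_mul]; rfl

theorem cx_injective {X Y : Matrix J J ℚ} (h : cx X = cx Y) : X = Y := by
  ext i j
  have := congrFun (congrFun h i) j
  simpa [cx] using this

theorem trace_cx (X : Matrix J J ℚ) : (cx X).trace = (X.trace : ℂ) := by
  simp [Matrix.trace, cx]

theorem sharp_cx (X : Matrix J J ℚ) : sharp (cx X) = cx (sharp X) := sharp_map _ _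

/-- the conjugate operator kills the same rational tensors -/
theorem act_cj {I : Type} [Fintype I] [DecidableEq I] {k : ℕ} (P : Matrix I I ℂ)
    (f : (Fin k → I) → ℚ) (h : act P (ext f) = 0) : act (cj P) (ext f) = 0 := by
  funext i
  have h1 := map_act (starRingEnd ℂ) P (ext f) i
  rw [h] at h1
  have h2 : (fun i => (starRingEnd ℂ) (ext f i)) = ext f := by
    funext i
    simp [ext]
  rw [h2] at h1
  change act (P.map (starRingEnd ℂ)) (ext f) i = 0
  rw [h1]
  simp

theorem sharp_cj (P : Matrix J J ℂ) : sharp (cj P) = cj (sharp P) := sharp_map _ _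

theorem mem_mtC_self (P : Matrix J J ℂ) : P ∈ mtC P := fun _ _ h => h

theorem mem_mtC_cj (P : Matrix J J ℂ) : cj P ∈ mtC P := by
  intro k f h
  rw [sharp_cj]
  exact act_cj _ f h

theorem cx_mem_mtC {P : Matrix J J ℂ} {X : Matrix J J ℚ} : cx X ∈ mtC P ↔ X ∈ mt P := by
  constructor
  · intro h k f hf
    have h1 := h k f hf
    rw [sharp_cx, act_ext, ext_eq_zero] at h1
    exact h1
  · intro h k f hf
    rw [sharp_cx, act_ext, ext_eq_zero]
    exact h k f hf

/-- complex solutions are combinations of rational solutions -/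
theorem mtC_le_span (P : Matrix J J ℂ) :
    mtC P ≤ Submodule.span ℂ (Set.range fun X : mt P => cx (X : Matrix J J ℚ)) := by
  classical
  intro Z hZ
  let b := Module.Basis.ofVectorSpace ℚ ℂ
  have h1 : ∀ t, (Matrix.of fun i j => b.repr (Z i j) t) ∈ mt P := by
    intro t k f hf
    funext i
    have h2 := congrFun (hZ k f hf) i
    simp only [act, Pi.zero_apply, ext] at h2 ⊢
    have h3 := congrArg (fun z => b.repr z t) h2
    simp only [map_zero, Finsupp.coe_zero, Pi.zero_apply, map_sum, Finsupp.coe_finsetSum,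
      Finset.sum_apply] at h3
    rw [← h3]
    refine Finset.sum_congr rfl fun a _ => Finset.sum_congr rfl fun j _ => ?_
    rw [mul_comm (sharp Z (i a) j), ← Rat.smul_def, map_smul, Finsupp.smul_apply, smul_eq_mul,
      mul_comm]
    congr 1
    rcases i a with i' | i' <;> rcases j with j | j <;> simp [sharp]
  let T : Finset _ := Finset.univ.biUnion fun x : J × J => (b.repr (Z x.1 x.2)).support
  have h2 : Z = ∑ t ∈ T, b t • cx (Matrix.of fun i j => b.repr (Z i j) t) := by
    ext i j
    rw [Matrix.sum_apply]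
    have h3 := b.linearCombination_repr (Z i j)
    rw [Finsupp.linearCombination_apply, Finsupp.sum] at h3
    conv_lhs => rw [← h3]
    refine (Finset.sum_subset (Finset.subset_biUnion_of_mem
      (fun x : J × J => (b.repr (Z x.1 x.2)).support) (Finset.mem_univ (i, j)))
      fun t _ ht => ?_).trans ?_
    · rw [Finsupp.notMem_support_iff.1 ht, zero_smul]
    · refine Finset.sum_congr rfl fun t _ => ?_
      rw [Matrix.smul_apply, cx, Matrix.map_apply, Matrix.of_apply, smul_eq_mul, Rat.smul_def,
        mul_comm]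
      rfl
  rw [h2]
  refine Submodule.sum_mem _ fun t _ => Submodule.smul_mem _ _ (Submodule.subset_span ?_)
  exact ⟨⟨_, h1 t⟩, rfl⟩

theorem finrank_mtC_le (P : Matrix J J ℂ) :
    Module.finrank ℂ (mtC P) ≤ Module.finrank ℚ (mt P) := by
  classical
  let v := Module.finBasis ℚ (mt P)
  have h1 : mtC P ≤ Submodule.span ℂ (Set.range fun i => cx (v i : Matrix J J ℚ)) := by
    refine (mtC_le_span P).trans (Submodule.span_le.2 ?_)
    rintro _ ⟨X, rfl⟩
    have h2 := v.sum_repr X
    have h4 : (X : Matrix J J ℚ) = ∑ i, v.repr X i • (v i : Matrix J J ℚ) := by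
      have := congrArg (mt P).subtype h2
      simpa only [map_sum, map_smul, Submodule.subtype_apply] using this.symm
    have h3 : cx (X : Matrix J J ℚ) =
        ∑ i, ((v.repr X i : ℚ) : ℂ) • cx (v i : Matrix J J ℚ) := by
      conv_lhs => rw [h4]
      ext a b
      simp only [cx, Matrix.map_apply, Matrix.sum_apply, Matrix.smul_apply, smul_eq_mul, map_sum,
        map_mul]
      rfl
    simp only [SetLike.mem_coe]
    rw [h3]
    exact Submodule.sum_mem _ fun i _ => Submodule.smul_mem _ _
      (Submodule.subset_span (Set.mem_range_self i))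
  refine (Submodule.finrank_mono h1).trans ?_
  refine (finrank_range_le_card _).trans ?_
  rw [Fintype.card_fin]

/-- rational vectors independent over `ℚ` are independent over `ℂ` -/
theorem independent {n : ℕ} (v : Fin n → Matrix J J ℚ) (hv : LinearIndependent ℚ v) :
    LinearIndependent ℂ fun i => cx (v i) := by
  classical
  let b := Module.Basis.ofVectorSpace ℚ ℂ
  rw [Fintype.linearIndependent_iff] at hv ⊢
  intro z hz i
  apply b.repr.injective
  rw [map_zero]
  ext t
  rw [Finsupp.coe_zero, Pi.zero_apply]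
  refine hv (fun i => b.repr (z i) t) ?_ i
  ext k l
  rw [Matrix.sum_apply]
  have h1 := congrArg (fun X : Matrix J J ℂ => b.repr (X k l) t) hz
  simp only [Matrix.sum_apply, Matrix.zero_apply, map_zero, Finsupp.coe_zero, Pi.zero_apply,
    map_sum, Finsupp.coe_finsetSum, Finset.sum_apply, Matrix.smul_apply, smul_eq_mul] at h1
  simp only [Matrix.smul_apply, smul_eq_mul, Matrix.zero_apply]
  rw [← h1]
  refine Finset.sum_congr rfl fun i _ => ?_
  rw [mul_comm (z i), cx, Matrix.map_apply,
    show (Rat.castHom ℂ) (v i k l) * z i = (v i k l) • z i from by rw [Rat.smul_def]; rfl,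
    map_smul, Finsupp.smul_apply, smul_eq_mul, mul_comm]

/-- a subspace containing the rational solutions has at least their dimension -/
theorem finrank_mt_le (P : Matrix J J ℂ) (U : Submodule ℂ (Matrix J J ℂ))
    (hU : ∀ X ∈ mt P, cx X ∈ U) : Module.finrank ℚ (mt P) ≤ Module.finrank ℂ U := by
  classical
  let v := Module.finBasis ℚ (mt P)
  have h1 : LinearIndependent ℚ fun i => (v i : Matrix J J ℚ) :=
    v.linearIndependent.map' (mt P).subtype (Submodule.ker_subtype _)
  have h2 := independent _ h1
  have h3 : LinearIndependent ℂ fun i => (⟨cx (v i : Matrix J J ℚ), hU _ (v i).2⟩ : U) :=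
    LinearIndependent.of_comp U.subtype h2
  have := h3.fintype_card_le_finrank
  rwa [Fintype.card_fin] at this

end lemmas

section general

variable {J : Type} [Fintype J] [DecidableEq J]

theorem sharp_mul_blocks {Y X g h : Matrix J J ℂ} (hhg : h * g = 1) (hgh : g * h = 1)
    (hY : Y * g = g * X) : sharp Y * Matrix.fromBlocks g 0 0 h.transpose =
      Matrix.fromBlocks g 0 0 h.transpose * sharp X := by
  have h1 : h * Y = X * h := by
    calc h * Y = h * Y * (g * h) := by rw [hgh, Matrix.mul_one]
      _ = h * (Y * g) * h := by simp only [Matrix.mul_assoc]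
      _ = h * (g * X) * h := by rw [hY]
      _ = X * h := by rw [← Matrix.mul_assoc, hhg, Matrix.one_mul]
  rw [sharp, sharp, Matrix.fromBlocks_multiply, Matrix.fromBlocks_multiply]
  simp only [Matrix.mul_zero, Matrix.zero_mul, add_zero, zero_add]
  rw [hY]
  congr 1
  rw [Matrix.neg_mul, Matrix.mul_neg, ← Matrix.transpose_mul, ← Matrix.transpose_mul, h1]

/-- a matrix which kills all complex tensors killed by `P`, `Q` is a combination of them -/
theorem general_case (P Q X g : Matrix J J ℂ) (hg : IsUnit g.det) (p q : J → ℤ)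
    (hP : P * g = g * Matrix.diagonal (fun j => (p j : ℂ)))
    (hQ : Q * g = g * Matrix.diagonal (fun j => (q j : ℂ)))
    (hX : ∀ (k : ℕ) (f : (Fin k → J ⊕ J) → ℂ), act (sharp P) f = 0 → act (sharp Q) f = 0 →
      act (sharp X) f = 0) : ∃ α β : ℂ, X = α • P + β • Q := by
  have hhg : g⁻¹ * g = 1 := Matrix.nonsing_inv_mul g hg
  have hgh : g * g⁻¹ = 1 := Matrix.mul_nonsing_inv g hg
  set X' := g⁻¹ * X * g with hX'
  have hXg : X * g = g * X' := by
    rw [hX', ← Matrix.mul_assoc, ← Matrix.mul_assoc, hgh, Matrix.one_mul]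
  set G := Matrix.fromBlocks g 0 0 (g⁻¹).transpose with hG
  set H := Matrix.fromBlocks g⁻¹ 0 0 g.transpose with hH
  have hHG : H * G = 1 := by
    rw [hG, hH, Matrix.fromBlocks_multiply]
    simp only [Matrix.mul_zero, Matrix.zero_mul, add_zero, zero_add]
    rw [hhg, ← Matrix.transpose_mul, hhg, Matrix.transpose_one, Matrix.fromBlocks_one]
  obtain ⟨α, β, h⟩ := diag_case p q X' fun k f hp hq => by
    have h1 : act (sharp P) (tra G f) = 0 := by
      rw [act_tra_eq (sharp_mul_blocks hhg hgh hP), hp]
      funext i; simp [tra]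
    have h2 : act (sharp Q) (tra G f) = 0 := by
      rw [act_tra_eq (sharp_mul_blocks hhg hgh hQ), hq]
      funext i; simp [tra]
    have h3 := hX k _ h1 h2
    rw [act_tra_eq (sharp_mul_blocks hhg hgh hXg)] at h3
    exact tra_injective hHG h3
  refine ⟨α, β, ?_⟩
  have h1 : Matrix.diagonal (fun j => α * (p j : ℂ) + β * (q j : ℂ)) =
      α • Matrix.diagonal (fun j => (p j : ℂ)) + β • Matrix.diagonal (fun j => (q j : ℂ)) := by
    rw [← Matrix.diagonal_smul, ← Matrix.diagonal_smul, Matrix.diagonal_add]
    rfl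
  calc X = X * (g * g⁻¹) := by rw [hgh, Matrix.mul_one]
    _ = g * X' * g⁻¹ := by rw [← Matrix.mul_assoc, hXg]
    _ = (g * (α • Matrix.diagonal (fun j => (p j : ℂ)) +
          β • Matrix.diagonal (fun j => (q j : ℂ)))) * g⁻¹ := by rw [h, h1]
    _ = (α • (P * g) + β • (Q * g)) * g⁻¹ := by
        rw [Matrix.mul_add, Matrix.mul_smul, Matrix.mul_smul, ← hP, ← hQ]
    _ = _ := by
        rw [Matrix.add_mul, Matrix.smul_mul, Matrix.smul_mul, Matrix.mul_assoc, Matrix.mul_assoc,
          hgh, Matrix.mul_one, Matrix.mul_one]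

/-- the case in which the span of the operators is defined over `ℚ` -/
theorem span_of_kills {S : Type} (Y : S → Matrix J J ℚ) (P Q X g : Matrix J J ℂ)
    (hg : IsUnit g.det) (p q : J → ℤ)
    (hP : P * g = g * Matrix.diagonal (fun j => (p j : ℂ)))
    (hQ : Q * g = g * Matrix.diagonal (fun j => (q j : ℂ)))
    (hY : ∀ s, ∃ a b : ℂ, cx (Y s) = a • P + b • Q)
    (hPY : P ∈ Submodule.span ℂ (Set.range fun s => cx (Y s)))
    (hX : X ∈ mtC P) : ∃ α β : ℂ, X = α • P + β • Q := by
  refine general_case P Q X g hg p q hP hQ fun k f h1 h2 => ?_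
  refine rat_span (fun s => sharp (Y s)) (sharp X) (fun f' hf' => hX k f' ?_) f fun s => ?_
  · -- the operator `P` is a combination of the `Y s`
    have hkill : ∀ Z ∈ Submodule.span ℂ (Set.range fun s => cx (Y s)),
        act (sharp Z) (ext f') = 0 := by
      intro Z hZ
      induction hZ using Submodule.span_induction with
      | mem Z h =>
        obtain ⟨s, rfl⟩ := h
        rw [sharp_cx, act_ext, hf' s]
        exact ext_eq_zero.2 rfl
      | zero =>
        have : sharp (0 : Matrix J J ℂ) = 0 := by simp [sharp]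
        rw [this, act_zero_left]
      | add Z Z' _ _ h h' => rw [sharp_add, act_add_left, h, h', add_zero]
      | smul a Z _ h => rw [sharp_smul, act_smul_left, h, smul_zero]
    exact hkill P hPY
  · obtain ⟨a, b, h⟩ := hY s
    rw [← sharp_cx, h, sharp_add, sharp_smul, sharp_smul, act_add_left, act_smul_left,
      act_smul_left, h1, h2, smul_zero, smul_zero, add_zero]

end general

/-- the logarithmic derivative of the period matrix kills the Hodge tensors -/
theorem logDer_mem {𝓜 : Obj → Prop} (h𝓜 : IsClass 𝓜) {M : Obj} (hM : 𝓜 M)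
    (D : Derivation ℚ ℂ ℂ) : logDer ℚ M.c D ∈ mtC M.P := by
  intro k f hf
  obtain ⟨g, hg, hgf⟩ := h𝓜.tensors (M.sum M.dual) (h𝓜.sum _ _ hM (h𝓜.dual _ hM)) k f hf
  refine kills (Matrix.fromBlocks M.c 0 0 (M.c⁻¹).transpose) (sharp (logDer ℚ M.c D)) D ?_ (ext f)
    (fun i => ?_) g hg hgf
  · have hc := h𝓜.det M hM
    rw [sharp, Matrix.fromBlocks_multiply]
    simp only [Matrix.mul_zero, Matrix.zero_mul, add_zero, zero_add]
    rw [logDer_mul hc, map_inv_transpose hc, Matrix.fromBlocks_map]
    congr 1
    · ext i j; simp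
    · ext i j; simp
  · exact isAlgebraic_algebraMap (f i)

end Pool.Agent.TH30.PD
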