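import Pool.Agent.TH30.PD.Tens

/-!
A matrix which kills all tensors killed by two commuting diagonalisable matrices with integer
eigenvalues is a combination of them.
-/

set_option autoImplicit false
set_option linter.unusedSectionVars false

open Matrix

namespace Pool.Agent.TH30.PD

/-- scalar extension of a rational tensor -/
def ext {k : ℕ} {J : Type} (f : (Fin k → J) → ℚ) (i : Fin k → J) : ℂ := ((f i : ℚ) : ℂ)

section rational

variable {J : Type} [Fintype J] [DecidableEq J] {k : ℕ}

/-- a rational matrix as a complex one -/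
noncomputable def cx {I : Type} (X : Matrix I I ℚ) : Matrix I I ℂ := X.map (Rat.castHom ℂ)

theorem act_ext (X : Matrix J J ℚ) (f : (Fin k → J) → ℚ) : act (cx X) (ext f) = ext (act X f) := by
  funext i
  exact map_act (Rat.castHom ℂ) X f i

theorem ext_eq_zero {f : (Fin k → J) → ℚ} : ext f = 0 ↔ f = 0 := by
  constructor
  · intro h
    funext i
    have := congrFun h i
    simpa [ext] using this
  · rintro rfl
    funext i
    simp [ext]

/-- complex solutions of rational equations are combinations of rational solutions -/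
theorem rat_span {S : Type} (Y : S → Matrix J J ℚ) (X : Matrix J J ℂ)
    (hX : ∀ f : (Fin k → J) → ℚ, (∀ s, act (Y s) f = 0) → act X (ext f) = 0)
    (f : (Fin k → J) → ℂ) (hf : ∀ s, act (cx (Y s)) f = 0) : act X f = 0 := by
  classical
  let b := Module.Basis.ofVectorSpace ℚ ℂ
  have h1 : ∀ t, act X (ext fun i => b.repr (f i) t) = 0 := by
    intro t
    refine hX _ fun s => ?_
    funext i
    have h2 := congrFun (hf s) i
    simp only [act, cx, Matrix.map_apply, Pi.zero_apply] at h2 ⊢
    have h3 := congrArg (fun z => b.repr z t) h2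
    simp only [map_zero, Finsupp.coe_zero, Pi.zero_apply] at h3
    rw [← h3]
    simp only [map_sum, Finsupp.coe_finsetSum, Finset.sum_apply]
    refine Finset.sum_congr rfl fun a _ => Finset.sum_congr rfl fun j _ => ?_
    rw [show (Rat.castHom ℂ) (Y s (i a) j) * f (Function.update i a j) =
      (Y s (i a) j) • f (Function.update i a j) from by rw [Rat.smul_def]; rfl]
    rw [map_smul]
    simp
  let T : Finset _ := Finset.univ.biUnion fun i => (b.repr (f i)).support
  have h2 : f = ∑ t ∈ T, b t • ext fun i => b.repr (f i) t := by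
    funext i
    rw [Finset.sum_apply]
    have h3 := b.linearCombination_repr (f i)
    rw [Finsupp.linearCombination_apply, Finsupp.sum] at h3
    conv_lhs => rw [← h3]
    refine (Finset.sum_subset (Finset.subset_biUnion_of_mem
      (fun i => (b.repr (f i)).support) (Finset.mem_univ i)) fun t _ ht => ?_).trans ?_
    · rw [Finsupp.notMem_support_iff.1 ht, zero_smul]
    · refine Finset.sum_congr rfl fun t _ => ?_
      rw [Pi.smul_apply, ext, smul_eq_mul, Rat.smul_def, mul_comm]
  rw [h2, act_sum_right]
  refine Finset.sum_eq_zero fun t _ => ?_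
  rw [act_smul_right, h1, smul_zero]

end rational

section diag

variable {J : Type} [Fintype J] [DecidableEq J]

/-- a pure tensor -/
def pure {k : ℕ} (i : Fin k → J ⊕ J) (l : Fin k → J ⊕ J) : ℂ := if l = i then 1 else 0

/-- weights on the space plus its dual -/
def pm {R : Type} [Neg R] (g : J → R) (x : J ⊕ J) : R := Sum.elim g (fun j => -g j) x

theorem sharp_diagonal (g : J → ℂ) : sharp (Matrix.diagonal g) = Matrix.diagonal (pm g) := by
  rw [sharp, Matrix.diagonal_transpose]
  ext a b
  rcases a with a | a <;> rcases b with b | b <;> by_cases h : a = b <;>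
    simp [pm, Matrix.diagonal, h]

theorem act_diagonal {I : Type} [Fintype I] [DecidableEq I] {k : ℕ} (g : I → ℂ)
    (f : (Fin k → I) → ℂ) (i : Fin k → I) :
    act (Matrix.diagonal g) f i = (∑ a, g (i a)) * f i := by
  rw [act, Finset.sum_mul]
  refine Finset.sum_congr rfl fun a _ => ?_
  rw [Finset.sum_eq_single (i a)]
  · rw [Matrix.diagonal_apply_eq, Function.update_eq_self]
  · intro j _ hj
    rw [Matrix.diagonal_apply_ne _ (Ne.symm hj), zero_mul]
  · intro h
    exact absurd (Finset.mem_univ _) h

theorem pure_killed {k : ℕ} (g : J → ℤ) (i : Fin k → J ⊕ J) (hi : ∑ a, pm g (i a) = 0) :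
    act (sharp (Matrix.diagonal fun j => (g j : ℂ))) (pure i) = 0 := by
  funext l
  rw [sharp_diagonal, act_diagonal, Pi.zero_apply, pure]
  split_ifs with h
  · rw [h, mul_one]
    have h1 : (∑ a, pm (fun j => (g j : ℂ)) (i a)) = ((∑ a, pm g (i a) : ℤ) : ℂ) := by
      rw [Int.cast_sum]
      refine Finset.sum_congr rfl fun a _ => ?_
      rcases i a with j | j <;> simp [pm]
    rw [h1, hi, Int.cast_zero]
  · rw [mul_zero]

/-- the integer multiple `m` of the index `j`, as a list of signed indices -/
def mult (m : ℤ) (j : J) : List (J ⊕ J) :=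
  List.replicate m.natAbs (if 0 ≤ m then Sum.inl j else Sum.inr j)

theorem sum_mult {R : Type} [CommRing R] (g : J → R) (m : ℤ) (j : J) :
    ((mult m j).map (pm g)).sum = m * g j := by
  rw [mult, List.map_replicate, List.sum_replicate, nsmul_eq_mul]
  have h1 : ((m.natAbs : ℕ) : R) = ((m.natAbs : ℤ) : R) := (Int.cast_natCast _).symm
  split_ifs with h
  · rw [h1, Int.natAbs_of_nonneg h]
    rfl
  · rw [h1, show ((m.natAbs : ℤ)) = -m from by omega]
    simp [pm]

theorem sum_mults {R : Type} [CommRing R] (g : J → R) (m : J → ℤ) :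
    (((Finset.univ.toList.map fun j => mult (m j) j).flatten).map (pm g)).sum =
      ∑ j, (m j : R) * g j := by
  rw [List.map_flatten, List.sum_flatten, List.map_map, List.map_map]
  rw [← Finset.sum_map_toList]
  congr 1
  refine List.map_congr_left fun j _ => ?_
  simp only [Function.comp_apply]
  exact sum_mult g (m j) j

theorem sum_get {R : Type} [CommRing R] (g : J ⊕ J → R) (L : List (J ⊕ J)) :
    ∑ a : Fin L.length, g (L.get a) = (L.map g).sum := by
  rw [← List.sum_ofFn]
  congr 1
  apply List.ext_get
  · simp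
  · intro n h1 h2
    simp

/-- the diagonal case -/
theorem diag_case (p q : J → ℤ) (X : Matrix J J ℂ)
    (hX : ∀ (k : ℕ) (f : (Fin k → J ⊕ J) → ℂ),
      act (sharp (Matrix.diagonal fun j => (p j : ℂ))) f = 0 →
      act (sharp (Matrix.diagonal fun j => (q j : ℂ))) f = 0 → act (sharp X) f = 0) :
    ∃ α β : ℂ, X = Matrix.diagonal fun j => α * p j + β * q j := by
  classical
  -- off-diagonal entries
  have hoff : ∀ l j, l ≠ j → X l j = 0 := by
    intro l j hlj
    have h1 := hX 2 (pure ![Sum.inl j, Sum.inr j])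
      (pure_killed p _ (by simp [pm, Fin.sum_univ_two]))
      (pure_killed q _ (by simp [pm, Fin.sum_univ_two]))
    have h2 := congrFun h1 ![Sum.inl l, Sum.inr j]
    simp only [act, Fin.sum_univ_two, Pi.zero_apply, Matrix.cons_val_zero, Matrix.cons_val_one] at h2
    have h3 : ∀ m : J ⊕ J, pure ![Sum.inl j, Sum.inr j]
        (Function.update ![(Sum.inl l : J ⊕ J), Sum.inr j] 0 m) = if m = Sum.inl j then 1 else 0 := by
      intro m
      rw [pure]
      congr 1
      rw [eq_iff_iff]
      constructor
      · intro h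
        have := congrFun h 0
        simpa using this
      · rintro rfl
        funext a
        fin_cases a <;> simp
    have h4 : ∀ m : J ⊕ J, pure ![Sum.inl j, Sum.inr j]
        (Function.update ![(Sum.inl l : J ⊕ J), Sum.inr j] 1 m) = 0 := by
      intro m
      rw [pure, if_neg]
      intro h
      have := congrFun h 0
      simp [hlj] at this
    simp only [h3, h4, mul_zero, Finset.sum_const_zero, add_zero, mul_ite, mul_one,
      Finset.sum_ite_eq', Finset.mem_univ, if_true] at h2
    simpa [sharp] using h2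
  have hdiag : X = Matrix.diagonal fun j => X j j := by
    ext l j
    by_cases h : l = j
    · rw [h, Matrix.diagonal_apply_eq]
    · rw [hoff l j h, Matrix.diagonal_apply_ne _ h]
  -- relations between the diagonal entries
  have hrel : ∀ m : J → ℤ, ∑ j, m j * p j = 0 → ∑ j, m j * q j = 0 →
      ∑ j, (m j : ℂ) * X j j = 0 := by
    intro m hp hq
    set L : List (J ⊕ J) := (Finset.univ.toList.map fun j => mult (m j) j).flatten with hL
    have hp' : ∑ a : Fin L.length, pm p (L.get a) = 0 := by
      rw [sum_get (pm p) L, hL, sum_mults]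
      simpa using hp
    have hq' : ∑ a : Fin L.length, pm q (L.get a) = 0 := by
      rw [sum_get (pm q) L, hL, sum_mults]
      simpa using hq
    have h1 := hX L.length (pure L.get) (pure_killed p _ hp') (pure_killed q _ hq')
    rw [hdiag, sharp_diagonal] at h1
    have h2 := congrFun h1 L.get
    rw [act_diagonal, pure, if_pos rfl, mul_one, sum_get (pm fun j => X j j) L, hL,
      sum_mults] at h2
    exact h2
  -- linear algebra over the rationals
  let φ : (J → ℚ) →ₗ[ℚ] ℚ × ℚ :=
    (∑ j, (p j : ℚ) • LinearMap.proj j).prod (∑ j, (q j : ℚ) • LinearMap.proj j)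
  let ψ : (J → ℚ) →ₗ[ℚ] ℂ := ∑ j, (LinearMap.toSpanSingleton ℚ ℂ (X j j)).comp (LinearMap.proj j)
  have hφ1 : ∀ m, (φ m).1 = ∑ j, (p j : ℚ) * m j := by
    intro m; simp [φ]
  have hφ2 : ∀ m, (φ m).2 = ∑ j, (q j : ℚ) * m j := by
    intro m; simp [φ]
  have hψ : ∀ m, ψ m = ∑ j, (m j : ℂ) * X j j := by
    intro m
    simp only [ψ, LinearMap.coe_sum, Finset.sum_apply, LinearMap.comp_apply, LinearMap.proj_apply,
      LinearMap.toSpanSingleton_apply, Rat.smul_def]
  have hker : LinearMap.ker φ ≤ LinearMap.ker ψ := by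
    intro m hm
    rw [LinearMap.mem_ker] at hm ⊢
    let N : ℕ := ∏ j, (m j).den
    have hN : (N : ℚ) ≠ 0 := by
      have : N ≠ 0 := Finset.prod_ne_zero_iff.2 fun j _ => (m j).den_ne_zero
      exact_mod_cast this
    have hint : ∀ j, ∃ z : ℤ, (z : ℚ) = N * m j := by
      intro j
      refine ⟨(∏ l ∈ Finset.univ.erase j, ((m l).den : ℤ)) * (m j).num, ?_⟩
      have h1 : (N : ℚ) = (m j).den * ∏ l ∈ Finset.univ.erase j, ((m l).den : ℚ) := by
        rw [Finset.mul_prod_erase Finset.univ (fun l => ((m l).den : ℚ)) (Finset.mem_univ j)]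
        simp only [N, Nat.cast_prod]
      rw [h1]
      push_cast
      have h2 : ((m j).den : ℚ) * m j = (m j).num := Rat.den_mul_eq_num (m j)
      rw [← h2]
      ring
    choose z hz using hint
    have e1 := hφ1 m
    have e2 := hφ2 m
    rw [hm] at e1 e2
    have h1 : ∑ j, z j * p j = 0 := by
      have : ((∑ j, z j * p j : ℤ) : ℚ) = 0 := by
        push_cast
        rw [show (∑ j, (z j : ℚ) * p j) = N * ∑ j, (p j : ℚ) * m j from by
          rw [Finset.mul_sum]
          refine Finset.sum_congr rfl fun j _ => ?_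
          rw [hz]; ring]
        rw [← e1]; simp
      exact_mod_cast this
    have h2 : ∑ j, z j * q j = 0 := by
      have : ((∑ j, z j * q j : ℤ) : ℚ) = 0 := by
        push_cast
        rw [show (∑ j, (z j : ℚ) * q j) = N * ∑ j, (q j : ℚ) * m j from by
          rw [Finset.mul_sum]
          refine Finset.sum_congr rfl fun j _ => ?_
          rw [hz]; ring]
        rw [← e2]; simp
      exact_mod_cast this
    have h3 := hrel z h1 h2
    have h4 : ∑ j, (z j : ℂ) * X j j = N * ψ m := by
      rw [hψ, Finset.mul_sum]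
      refine Finset.sum_congr rfl fun j _ => ?_
      have : (z j : ℂ) = ((z j : ℚ) : ℂ) := by push_cast; rfl
      rw [this, hz]
      push_cast
      ring
    rw [h4] at h3
    rcases mul_eq_zero.1 h3 with h | h
    · exfalso
      apply hN
      exact_mod_cast h
    · exact h
  obtain ⟨g, hg⟩ : ∃ g : ℚ × ℚ →ₗ[ℚ] ℂ, g ∘ₗ φ = ψ := by
    let g0 : LinearMap.range φ →ₗ[ℚ] ℂ :=
      ((LinearMap.ker φ).liftQ ψ hker).comp φ.quotKerEquivRange.symm.toLinearMap
    obtain ⟨g, hg⟩ := LinearMap.exists_extend g0
    refine ⟨g, LinearMap.ext fun m => ?_⟩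
    have h1 : g (φ m) = g0 ⟨φ m, LinearMap.mem_range_self φ m⟩ := by
      rw [← hg]; rfl
    rw [LinearMap.comp_apply, h1]
    have h2 : φ.quotKerEquivRange.symm ⟨φ m, LinearMap.mem_range_self φ m⟩ =
        (LinearMap.ker φ).mkQ m := by
      rw [LinearEquiv.symm_apply_eq]
      rfl
    simp only [g0, LinearMap.comp_apply, LinearEquiv.coe_coe, h2]
    rfl
  refine ⟨g (1, 0), g (0, 1), ?_⟩
  rw [hdiag]
  congr 1
  funext j
  have h1 : ψ (Pi.single j 1) = X j j := by
    rw [hψ, Finset.sum_eq_single j]
    · simp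
    · intro l _ hl
      rw [Pi.single_eq_of_ne hl]; simp
    · intro h; exact absurd (Finset.mem_univ _) h
  have h2 : φ (Pi.single j 1) = ((p j : ℚ), (q j : ℚ)) := by
    ext
    · rw [hφ1, Finset.sum_eq_single j]
      · simp
      · intro l _ hl
        rw [Pi.single_eq_of_ne hl]; simp
      · intro h; exact absurd (Finset.mem_univ _) h
    · rw [hφ2, Finset.sum_eq_single j]
      · simp
      · intro l _ hl
        rw [Pi.single_eq_of_ne hl]; simp
      · intro h; exact absurd (Finset.mem_univ _) h
  have h3 : ((p j : ℚ), (q j : ℚ)) = (p j : ℚ) • ((1 : ℚ), (0 : ℚ)) + (q j : ℚ) • ((0 : ℚ), (1 : ℚ)) := by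
    ext <;> simp
  rw [← h1, ← hg, LinearMap.comp_apply, h2, h3, map_add, map_smul, map_smul, Rat.smul_def,
    Rat.smul_def]
  push_cast
  ring

end diag

end Pool.Agent.TH30.PD
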