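import Mathlib

/-!
Tensors in coordinates: the action of matrices as derivations and as group elements.
-/

set_option autoImplicit false
set_option linter.unusedSectionVars false

open Matrix

namespace Pool.Agent.TH30.PD

section basic

variable {R J : Type} [CommRing R] [Fintype J] [DecidableEq J] {k : ℕ}

/-- `X` acting as a derivation on a tensor with `k` indices in `J`. -/
def act (X : Matrix J J R) (f : (Fin k → J) → R) (i : Fin k → J) : R :=
  ∑ a, ∑ j, X (i a) j * f (Function.update i a j)

/-- `g` acting on a tensor with `k` indices in `J`. -/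
def tra (g : Matrix J J R) (f : (Fin k → J) → R) (i : Fin k → J) : R :=
  ∑ j : Fin k → J, (∏ a, g (i a) (j a)) * f j

/-- `X ↦ X ⊕ (-Xᵗ)`, the action on a space plus its dual. -/
def sharp (X : Matrix J J R) : Matrix (J ⊕ J) (J ⊕ J) R :=
  Matrix.fromBlocks X 0 0 (-X.transpose)

theorem act_add_left (X Y : Matrix J J R) (f : (Fin k → J) → R) :
    act (X + Y) f = act X f + act Y f := by
  funext i
  simp only [act, Pi.add_apply, Matrix.add_apply, add_mul, Finset.sum_add_distrib]

theorem act_smul_left (r : R) (X : Matrix J J R) (f : (Fin k → J) → R) :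
    act (r • X) f = r • act X f := by
  funext i
  simp only [act, Pi.smul_apply, Matrix.smul_apply, smul_eq_mul, mul_assoc, Finset.mul_sum]

theorem act_zero_left (f : (Fin k → J) → R) : act (0 : Matrix J J R) f = 0 := by
  funext i
  simp [act]

theorem act_add_right (X : Matrix J J R) (f g : (Fin k → J) → R) :
    act X (f + g) = act X f + act X g := by
  funext i
  simp only [act, Pi.add_apply, mul_add, Finset.sum_add_distrib]

theorem act_smul_right (r : R) (X : Matrix J J R) (f : (Fin k → J) → R) :
    act X (r • f) = r • act X f := by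
  funext i
  simp only [act, Pi.smul_apply, smul_eq_mul, Finset.mul_sum]
  refine Finset.sum_congr rfl fun a _ => Finset.sum_congr rfl fun j _ => ?_
  ring

theorem act_zero_right (X : Matrix J J R) : act X (0 : (Fin k → J) → R) = 0 := by
  funext i
  simp [act]

theorem act_sum_right {S : Type} (s : Finset S) (X : Matrix J J R) (f : S → (Fin k → J) → R) :
    act X (∑ t ∈ s, f t) = ∑ t ∈ s, act X (f t) := by
  classical
  induction s using Finset.induction_on with
  | empty => simp [act_zero_right]
  | insert t s ht ih => rw [Finset.sum_insert ht, Finset.sum_insert ht, act_add_right, ih]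

theorem sharp_add (X Y : Matrix J J R) : sharp (X + Y) = sharp X + sharp Y := by
  simp only [sharp, Matrix.fromBlocks_add, Matrix.transpose_add, neg_add, add_zero]

theorem sharp_smul (r : R) (X : Matrix J J R) : sharp (r • X) = r • sharp X := by
  simp only [sharp, Matrix.fromBlocks_smul, Matrix.transpose_smul, smul_neg, smul_zero]

theorem sharp_map {S : Type} [CommRing S] (φ : R →+* S) (X : Matrix J J R) :
    sharp (X.map φ) = (sharp X).map φ := by
  rw [sharp, sharp, Matrix.fromBlocks_map]
  congr 1
  · ext i j; simp
  · ext i j; simp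
  · ext i j; simp

theorem prod_update (g : Matrix J J R) (i j : Fin k → J) (a : Fin k) (l : J) :
    (∏ b, g (Function.update i a l b) (j b)) =
      g l (j a) * ∏ b ∈ Finset.univ.erase a, g (i b) (j b) := by
  rw [← Finset.mul_prod_erase Finset.univ _ (Finset.mem_univ a), Function.update_self]
  congr 1
  refine Finset.prod_congr rfl fun b hb => ?_
  rw [Function.update_of_ne (Finset.ne_of_mem_erase hb)]

/-- the common form of the two composites -/
def mid (A g : Matrix J J R) (f : (Fin k → J) → R) (i : Fin k → J) : R :=
  ∑ j : Fin k → J, (∑ a, A (i a) (j a) * ∏ b ∈ Finset.univ.erase a, g (i b) (j b)) * f j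

theorem act_tra (X g : Matrix J J R) (f : (Fin k → J) → R) :
    act X (tra g f) = mid (X * g) g f := by
  funext i
  simp only [act, tra, mid, prod_update]
  simp only [Finset.mul_sum, Finset.sum_mul]
  rw [show (∑ a, ∑ l, ∑ j : Fin k → J, X (i a) l *
      ((g l (j a) * ∏ b ∈ Finset.univ.erase a, g (i b) (j b)) * f j)) =
      ∑ j : Fin k → J, ∑ a, ∑ l, X (i a) l *
      ((g l (j a) * ∏ b ∈ Finset.univ.erase a, g (i b) (j b)) * f j) from ?_]
  · refine Finset.sum_congr rfl fun j _ => Finset.sum_congr rfl fun a _ => ?_
    rw [Matrix.mul_apply, Finset.sum_mul, Finset.sum_mul]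
    refine Finset.sum_congr rfl fun l _ => ?_
    ring
  · symm
    rw [Finset.sum_comm]
    refine Finset.sum_congr rfl fun a _ => ?_
    rw [Finset.sum_comm]

/-- exchanging an entry -/
def swapEntry (a : Fin k) : ((Fin k → J) × J) ≃ ((Fin k → J) × J) where
  toFun x := (Function.update x.1 a x.2, x.1 a)
  invFun x := (Function.update x.1 a x.2, x.1 a)
  left_inv x := by ext <;> simp
  right_inv x := by ext <;> simp

theorem tra_act (X g : Matrix J J R) (f : (Fin k → J) → R) :
    tra g (act X f) = mid (g * X) g f := by
  funext i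
  simp only [act, tra, mid]
  simp only [Finset.mul_sum, Finset.sum_mul]
  rw [Finset.sum_comm]
  conv_rhs => rw [Finset.sum_comm]
  refine Finset.sum_congr rfl fun a _ => ?_
  have h1 : (∑ j : Fin k → J, ∑ l, (∏ b, g (i b) (j b)) *
      (X (j a) l * f (Function.update j a l))) =
      ∑ x : (Fin k → J) × J, (∏ b, g (i b) (x.1 b)) *
      (X (x.1 a) x.2 * f (Function.update x.1 a x.2)) := by
    rw [Fintype.sum_prod_type]
  rw [h1, ← Equiv.sum_comp (swapEntry a), Fintype.sum_prod_type]
  refine Finset.sum_congr rfl fun j _ => ?_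
  rw [Matrix.mul_apply, Finset.sum_mul, Finset.sum_mul]
  refine Finset.sum_congr rfl fun l _ => ?_
  simp only [swapEntry, Equiv.coe_fn_mk, Function.update_self, Function.update_idem,
    Function.update_eq_self]
  rw [← Finset.mul_prod_erase Finset.univ (fun b => g (i b) (Function.update j a l b))
    (Finset.mem_univ a), Function.update_self]
  have h2 : (∏ b ∈ Finset.univ.erase a, g (i b) (Function.update j a l b)) =
      ∏ b ∈ Finset.univ.erase a, g (i b) (j b) :=
    Finset.prod_congr rfl fun b hb => by
      rw [Function.update_of_ne (Finset.ne_of_mem_erase hb)]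
  rw [h2]
  ring

/-- intertwining -/
theorem act_tra_eq {X Y g : Matrix J J R} (h : Y * g = g * X) (f : (Fin k → J) → R) :
    act Y (tra g f) = tra g (act X f) := by
  rw [act_tra, tra_act, h]

theorem tra_mul (g h : Matrix J J R) (f : (Fin k → J) → R) :
    tra g (tra h f) = tra (g * h) f := by
  funext i
  simp only [tra]
  simp only [Finset.mul_sum]
  rw [Finset.sum_comm]
  refine Finset.sum_congr rfl fun l _ => ?_
  have h1 : (∏ a, (g * h) (i a) (l a)) = ∑ j : Fin k → J, ∏ a, g (i a) (j a) * h (j a) (l a) := by
    simp only [Matrix.mul_apply]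
    rw [Finset.prod_univ_sum, Fintype.piFinset_univ]
  rw [h1, Finset.sum_mul]
  refine Finset.sum_congr rfl fun j _ => ?_
  rw [Finset.prod_mul_distrib]
  ring

theorem tra_one (f : (Fin k → J) → R) : tra (1 : Matrix J J R) f = f := by
  funext i
  rw [tra, Finset.sum_eq_single i]
  · simp
  · intro j _ hj
    obtain ⟨a, ha⟩ := Function.ne_iff.1 hj
    have h1 : (1 : Matrix J J R) (i a) (j a) = 0 := Matrix.one_apply_ne (Ne.symm ha)
    rw [Finset.prod_eq_zero (Finset.mem_univ a) h1, zero_mul]
  · intro h
    exact absurd (Finset.mem_univ i) h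

theorem tra_injective {g h : Matrix J J R} (hg : h * g = 1) {f : (Fin k → J) → R}
    (h0 : tra g f = 0) : f = 0 := by
  have h1 : tra h (tra g f) = f := by rw [tra_mul, hg, tra_one]
  rw [← h1, h0]
  funext i
  simp [tra]

theorem map_act {S : Type} [CommRing S] (φ : R →+* S) (X : Matrix J J R)
    (f : (Fin k → J) → R) (i : Fin k → J) :
    act (X.map φ) (fun i => φ (f i)) i = φ (act X f i) := by
  simp only [act, map_sum, map_mul, Matrix.map_apply]

end basic

section der

variable {R J A : Type} [CommRing A] [CommRing R] [Algebra A R] [Fintype J] [DecidableEq J] {k : ℕ}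

theorem der_prod {ι : Type} [DecidableEq ι] (D : Derivation A R R) (s : Finset ι) (u : ι → R) :
    D (∏ a ∈ s, u a) = ∑ a ∈ s, D (u a) * ∏ b ∈ s.erase a, u b := by
  induction s using Finset.induction_on with
  | empty => simp
  | insert t s ht ih =>
    rw [Finset.prod_insert ht, D.leibniz, ih, Finset.sum_insert ht, Finset.erase_insert ht,
      smul_eq_mul, smul_eq_mul, Finset.mul_sum, add_comm, mul_comm]
    congr 1
    refine Finset.sum_congr rfl fun a ha => ?_
    have hta : t ≠ a := fun h => ht (h ▸ ha)
    rw [Finset.erase_insert_of_ne hta, Finset.prod_insert (by simp [ht])]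
    ring

/-- a derivation which kills the coordinates of `f` -/
theorem der_tra (D : Derivation A R R) (g X : Matrix J J R) (hX : X * g = g.map D)
    (f : (Fin k → J) → R) (hf : ∀ j, D (f j) = 0) (i : Fin k → J) :
    D (tra g f i) = act X (tra g f) i := by
  rw [act_tra, hX, tra, map_sum, mid]
  refine Finset.sum_congr rfl fun j _ => ?_
  rw [D.leibniz, hf, smul_zero, zero_add, smul_eq_mul, der_prod, mul_comm]
  rfl

end der

end Pool.Agent.TH30.PD
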