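import Pool.Agent.TH30.PD.Obj

/-!
Motives whose Mumford-Tate group has dimension at most two.
-/

set_option autoImplicit false
set_option linter.unusedSectionVars false

open Matrix

namespace Pool.Agent.TH30.PD

section traces

variable {J : Type} [Fintype J] [DecidableEq J]

theorem trace_of_diag {X Y g : Matrix J J ℂ} (hg : IsUnit g.det) {x y : J → ℂ}
    (hX : X * g = g * Matrix.diagonal x) (hY : Y * g = g * Matrix.diagonal y) :
    (X * Y).trace = ∑ j, x j * y j := by
  have hhg : g⁻¹ * g = 1 := Matrix.nonsing_inv_mul g hg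
  have hgh : g * g⁻¹ = 1 := Matrix.mul_nonsing_inv g hg
  have h1 : X * Y = g * Matrix.diagonal (fun j => x j * y j) * g⁻¹ := by
    calc X * Y = X * (Y * g) * g⁻¹ := by
          rw [← Matrix.mul_assoc, Matrix.mul_assoc (X * Y), hgh, Matrix.mul_one]
      _ = (X * g) * Matrix.diagonal y * g⁻¹ := by rw [hY]; simp only [Matrix.mul_assoc]
      _ = _ := by rw [hX, Matrix.mul_assoc g, Matrix.diagonal_mul_diagonal]
  rw [h1, Matrix.mul_assoc, Matrix.trace_mul_comm, Matrix.mul_assoc, hhg, Matrix.mul_one,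
    Matrix.trace_diagonal]

theorem trace_cj (X : Matrix J J ℂ) : (cj X).trace = (starRingEnd ℂ) X.trace := by
  simp [Matrix.trace, cj]

/-- a Hodge operator and its conjugate: traces -/
theorem exists_traces {P : Matrix J J ℂ} (hP : IsHodge P) :
    ((P + cj P) * (P - cj P)).trace = 0 ∧
    (∃ N : ℕ, ((P + cj P) * (P + cj P)).trace = N ∧ (N = 0 → P + cj P = 0)) ∧
    (∃ N : ℕ, ((P - cj P) * (P - cj P)).trace = N ∧ (N = 0 → P - cj P = 0)) := by
  obtain ⟨g, p, q, hg, hp, hq, W, hW⟩ := hP
  have hgh : g * g⁻¹ = 1 := Matrix.mul_nonsing_inv g hg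
  have hw : (P + cj P) * g = g * Matrix.diagonal (fun j => (p j : ℂ) + q j) := by
    rw [Matrix.add_mul, hp, hq, ← Matrix.mul_add, Matrix.diagonal_add]
  have hd : (P - cj P) * g = g * Matrix.diagonal (fun j => (p j : ℂ) - q j) := by
    rw [Matrix.sub_mul, hp, hq, ← Matrix.mul_sub, Matrix.diagonal_sub]
  have hzero : ∀ (X : Matrix J J ℂ) (x : J → ℤ), X * g = g * Matrix.diagonal (fun j => (x j : ℂ)) →
      ∑ j, (x j) ^ 2 = 0 → X = 0 := by
    intro X x hX hx
    have h1 : ∀ j, x j = 0 := by
      intro j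
      have := (Finset.sum_eq_zero_iff_of_nonneg fun j _ => sq_nonneg (x j)).1 hx j
        (Finset.mem_univ j)
      exact pow_eq_zero_iff (two_ne_zero) |>.1 this
    have h2 : Matrix.diagonal (fun j => (x j : ℂ)) = 0 := by
      ext i j
      simp [Matrix.diagonal, h1]
    calc X = X * (g * g⁻¹) := by rw [hgh, Matrix.mul_one]
      _ = 0 := by rw [← Matrix.mul_assoc, hX, h2, Matrix.mul_zero, Matrix.zero_mul]
  refine ⟨?_, ?_, ?_⟩
  · rw [trace_of_diag hg hw hd]
    have h1 := trace_of_diag hg hp hp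
    have h2 := trace_of_diag hg hq hq
    have h3 : (cj P * cj P).trace = (starRingEnd ℂ) (P * P).trace := by
      rw [← cj_mul, trace_cj]
    rw [h2, h1, map_sum] at h3
    have h4 : ∑ j, (q j : ℂ) * q j = ∑ j, (p j : ℂ) * p j := by
      rw [h3]
      refine Finset.sum_congr rfl fun j _ => ?_
      simp
    calc ∑ j, ((p j : ℂ) + q j) * ((p j : ℂ) - q j) = ∑ j, ((p j : ℂ) * p j - q j * q j) :=
          Finset.sum_congr rfl fun j _ => by ring
      _ = 0 := by rw [Finset.sum_sub_distrib, h4, sub_self]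
  · refine ⟨(∑ j, (p j + q j) ^ 2).toNat, ?_, ?_⟩
    · rw [trace_of_diag hg hw hw]
      have h1 : ((∑ j, (p j + q j) ^ 2).toNat : ℤ) = ∑ j, (p j + q j) ^ 2 :=
        Int.toNat_of_nonneg (Finset.sum_nonneg fun j _ => sq_nonneg _)
      have h2 : (((∑ j, (p j + q j) ^ 2).toNat : ℕ) : ℂ) =
          (((∑ j, (p j + q j) ^ 2).toNat : ℤ) : ℂ) := (Int.cast_natCast _).symm
      rw [h2, h1]
      push_cast
      exact Finset.sum_congr rfl fun j _ => by ring
    · intro h
      refine hzero _ (fun j => p j + q j) ?_ ?_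
      · rw [hw]; congr 1; ext i j; simp [Matrix.diagonal]
      · have h1 := Finset.sum_nonneg (s := Finset.univ) fun j _ => sq_nonneg (p j + q j)
        omega
  · refine ⟨(∑ j, (p j - q j) ^ 2).toNat, ?_, ?_⟩
    · rw [trace_of_diag hg hd hd]
      have h1 : ((∑ j, (p j - q j) ^ 2).toNat : ℤ) = ∑ j, (p j - q j) ^ 2 :=
        Int.toNat_of_nonneg (Finset.sum_nonneg fun j _ => sq_nonneg _)
      have h2 : (((∑ j, (p j - q j) ^ 2).toNat : ℕ) : ℂ) =
          (((∑ j, (p j - q j) ^ 2).toNat : ℤ) : ℂ) := (Int.cast_natCast _).symm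
      rw [h2, h1]
      push_cast
      exact Finset.sum_congr rfl fun j _ => by ring
    · intro h
      refine hzero _ (fun j => p j - q j) ?_ ?_
      · rw [hd]; congr 1; ext i j; simp [Matrix.diagonal]
      · have h1 := Finset.sum_nonneg (s := Finset.univ) fun j _ => sq_nonneg (p j - q j)
        omega

theorem mem_mt_weight {P : Matrix J J ℂ} {W : Matrix J J ℚ} (hW : P + cj P = cx W) :
    W ∈ mt P := by
  rw [← cx_mem_mtC, ← hW]
  exact Submodule.add_mem _ (mem_mtC_self P) (mem_mtC_cj P)

/-- when the difference of the operators is not zero, some rational element is a multiple of it -/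
theorem exists_multiple {P : Matrix J J ℂ} (hP : IsHodge P)
    (hd : Module.finrank ℚ (mt P) ≤ 2) (hw : Module.finrank ℚ (mt P) = 2 → P + cj P ≠ 0)
    (h0 : P - cj P ≠ 0) : ∃ (X : Matrix J J ℚ) (b : ℂ), b ≠ 0 ∧ cx X = b • (P - cj P) := by
  have hδ : P - cj P ∈ mtC P := Submodule.sub_mem _ (mem_mtC_self P) (mem_mtC_cj P)
  have hωm : P + cj P ∈ mtC P := Submodule.add_mem _ (mem_mtC_self P) (mem_mtC_cj P)
  have hfin := finrank_mtC_le P
  obtain ⟨t1, ⟨N, hN, hN0⟩, ⟨N', hN', hN0'⟩⟩ := exists_traces hP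
  have hNN' : (N' : ℂ) ≠ 0 := by
    intro h
    exact h0 (hN0' (by exact_mod_cast h))
  by_cases hω : P + cj P = 0
  · -- weight zero: dimension one
    have h1 : Module.finrank ℚ (mt P) ≤ 1 := by
      by_contra h
      exact hw (by omega) hω
    have h2 : Module.finrank ℂ (mtC P) ≤ 1 := hfin.trans h1
    obtain ⟨X, hX⟩ : ∃ X : mt P, cx (X : Matrix J J ℚ) ≠ 0 := by
      by_contra hcon
      push Not at hcon
      apply h0
      have h3 := mtC_le_span P hδ
      have h4 : Submodule.span ℂ (Set.range fun X : mt P => cx (X : Matrix J J ℚ)) = ⊥ := by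
        rw [Submodule.span_eq_bot]
        rintro _ ⟨X, rfl⟩
        exact hcon X
      rw [h4] at h3
      exact (Submodule.mem_bot ℂ).1 h3
    have h5 : Module.finrank ℂ (mtC P) = 1 := by
      refine le_antisymm h2 ?_
      rw [Nat.one_le_iff_ne_zero]
      intro h
      rw [Submodule.finrank_eq_zero] at h
      rw [h] at hδ
      exact h0 ((Submodule.mem_bot ℂ).1 hδ)
    obtain ⟨b, hb⟩ := exists_smul_eq_of_finrank_eq_one h5
      (x := (⟨P - cj P, hδ⟩ : mtC P)) (by simpa [Subtype.ext_iff] using h0)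
      ⟨cx (X : Matrix J J ℚ), cx_mem_mtC.2 X.2⟩
    have hb' : b • (P - cj P) = cx (X : Matrix J J ℚ) := congrArg Subtype.val hb
    refine ⟨X, b, ?_, hb'.symm⟩
    rintro rfl
    rw [zero_smul] at hb'
    exact hX hb'.symm
  · -- nonzero weight
    obtain ⟨g, p, q, hg, hp, hq, W, hW⟩ := hP
    have hNN : (N : ℂ) ≠ 0 := by
      intro h
      exact hω (hN0 (by exact_mod_cast h))
    have t1' : ((P - cj P) * (P + cj P)).trace = 0 := by rw [Matrix.trace_mul_comm, t1]
    -- the two operators span
    have hspan : ∀ Z ∈ mtC P, ∃ a b : ℂ, Z = a • (P + cj P) + b • (P - cj P) := by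
      have hli : LinearIndependent ℂ ![P + cj P, P - cj P] := by
        rw [LinearIndependent.pair_iff]
        intro s t hst
        have e1 : ((s • (P + cj P) + t • (P - cj P)) * (P + cj P)).trace = 0 := by
          rw [hst, Matrix.zero_mul, Matrix.trace_zero]
        have e2 : ((s • (P + cj P) + t • (P - cj P)) * (P - cj P)).trace = 0 := by
          rw [hst, Matrix.zero_mul, Matrix.trace_zero]
        rw [Matrix.add_mul, Matrix.smul_mul, Matrix.smul_mul, Matrix.trace_add,
          Matrix.trace_smul, Matrix.trace_smul, hN, t1', smul_zero, add_zero, smul_eq_mul] at e1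
        rw [Matrix.add_mul, Matrix.smul_mul, Matrix.smul_mul, Matrix.trace_add,
          Matrix.trace_smul, Matrix.trace_smul, hN', t1, smul_zero, zero_add, smul_eq_mul] at e2
        exact ⟨(mul_eq_zero.1 e1).resolve_right hNN, (mul_eq_zero.1 e2).resolve_right hNN'⟩
      have h1 : Submodule.span ℂ (Set.range ![P + cj P, P - cj P]) ≤ mtC P := by
        rw [Submodule.span_le]
        rintro _ ⟨i, rfl⟩
        fin_cases i
        · exact hωm
        · exact hδ
      have h2 : Module.finrank ℂ (Submodule.span ℂ (Set.range ![P + cj P, P - cj P])) = 2 := by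
        rw [finrank_span_eq_card hli, Fintype.card_fin]
      have h3 : Submodule.span ℂ (Set.range ![P + cj P, P - cj P]) = mtC P := by
        refine Submodule.eq_of_le_of_finrank_le h1 ?_
        rw [h2]
        exact hfin.trans hd
      intro Z hZ
      rw [← h3, Submodule.mem_span_range_iff_exists_fun] at hZ
      obtain ⟨c, hc⟩ := hZ
      refine ⟨c 0, c 1, ?_⟩
      rw [← hc, Fin.sum_univ_two]
      rfl
    -- projection away from the weight
    have hproj : ∀ X ∈ mt P, ∃ b : ℂ,
        cx (X - ((X * W).trace / (W * W).trace) • W) = b • (P - cj P) := by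
      intro X hX
      have hWW : ((W * W).trace : ℂ) = N := by
        rw [← hN, hW, ← cx_mul, trace_cx]
      set τ := (X * W).trace / (W * W).trace with hτ
      have hX' : X - τ • W ∈ mt P := Submodule.sub_mem _ hX
        (Submodule.smul_mem _ _ (mem_mt_weight hW))
      obtain ⟨a, b, hab⟩ := hspan _ (cx_mem_mtC.2 hX')
      refine ⟨b, ?_⟩
      have h1 : (cx (X - τ • W) * (P + cj P)).trace = a * N := by
        rw [hab, Matrix.add_mul, Matrix.smul_mul, Matrix.smul_mul, Matrix.trace_add,
          Matrix.trace_smul, Matrix.trace_smul, hN, t1']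
        simp
      have h2 : (cx (X - τ • W) * (P + cj P)).trace = 0 := by
        rw [hW, ← cx_mul, trace_cx, Matrix.sub_mul, Matrix.smul_mul, Matrix.trace_sub,
          Matrix.trace_smul, hτ, smul_eq_mul, div_mul_cancel₀, sub_self, Rat.cast_zero]
        intro h
        rw [h] at hWW
        exact hNN (by rw [← hWW]; simp)
      rw [h2] at h1
      have h3 : a = 0 := (mul_eq_zero.1 h1.symm).resolve_right hNN
      rw [hab, h3, zero_smul, zero_add]
    by_contra hcon
    push Not at hcon
    -- otherwise all rational elements are multiples of the weight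
    have hall : ∀ X ∈ mt P, cx X ∈ Submodule.span ℂ {P + cj P} := by
      intro X hX
      obtain ⟨b, hb⟩ := hproj X hX
      have hb0 : b = 0 := by
        by_contra hb0
        exact hcon _ b hb0 hb
      rw [hb0, zero_smul, cx_sub, cx_smul, sub_eq_zero] at hb
      rw [hb, ← hW]
      exact Submodule.smul_mem _ _ (Submodule.mem_span_singleton_self _)
    have h1 : P - cj P ∈ Submodule.span ℂ {P + cj P} := by
      have h2 := mtC_le_span P hδ
      refine (Submodule.span_le.2 ?_ : Submodule.span ℂ _ ≤ _) h2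
      rintro _ ⟨X, rfl⟩
      exact hall X X.2
    obtain ⟨z, hz⟩ := Submodule.mem_span_singleton.1 h1
    apply hNN'
    rw [← hN']
    conv_lhs => rw [← hz]
    rw [Matrix.smul_mul, hz, Matrix.trace_smul, t1, smul_zero]

/-- the imaginary quadratic field -/
theorem exists_quadratic {P : Matrix J J ℂ} (hP : IsHodge P)
    (hd : Module.finrank ℚ (mt P) ≤ 2) (hw : Module.finrank ℚ (mt P) = 2 → P + cj P ≠ 0) :
    ∃ (d : ℚ) (t : ℂ) (X : Matrix J J ℚ), 0 < d ∧ t ^ 2 = -(d : ℂ) ∧ t • (P - cj P) = cx X := by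
  by_cases h0 : P - cj P = 0
  · refine ⟨1, Complex.I, 0, one_pos, by simp, ?_⟩
    rw [h0, smul_zero]
    ext i j; simp [cx]
  obtain ⟨X, b, hb, hX⟩ := exists_multiple hP hd hw h0
  obtain ⟨t1, -, ⟨N', hN', hN0'⟩⟩ := exists_traces hP
  have hNN' : N' ≠ 0 := fun h => h0 (hN0' h)
  -- `b` is purely imaginary
  have h1 : (starRingEnd ℂ) b = -b := by
    have h2 := congrArg cj hX
    rw [cj_cx, cj_smul, cj_sub, cj_cj, hX] at h2
    have h3 : (b + (starRingEnd ℂ) b) • (P - cj P) = 0 := by
      rw [add_smul, h2, ← smul_add]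
      simp
    rcases smul_eq_zero.1 h3 with h | h
    · linear_combination h
    · exact absurd h h0
  have hre : b.re = 0 := by
    have := congrArg Complex.re h1
    simp at this
    linarith
  have him : b.im ≠ 0 := by
    intro h
    exact hb (Complex.ext hre h)
  have h2 : ((X * X).trace : ℂ) = b ^ 2 * N' := by
    rw [← trace_cx, cx_mul, hX, Matrix.smul_mul, Matrix.mul_smul, smul_smul, Matrix.trace_smul,
      hN', smul_eq_mul]
    ring
  have hb2 : b ^ 2 = ((-(b.im ^ 2) : ℝ) : ℂ) := by
    apply Complex.ext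
    · simp [pow_two, hre]
    · simp [pow_two, hre]
  refine ⟨-((X * X).trace / N'), b, X, ?_, ?_, hX.symm⟩
  · have h3 : (((X * X).trace : ℝ)) = -(b.im ^ 2) * N' := by
      have : (((X * X).trace : ℝ) : ℂ) = ((-(b.im ^ 2) * N' : ℝ) : ℂ) := by
        push_cast
        push_cast at hb2
        rw [h2, hb2]
      exact_mod_cast this
    have h4 : (0 : ℝ) < N' := by exact_mod_cast Nat.pos_of_ne_zero hNN'
    have h5 : ((-((X * X).trace / N') : ℚ) : ℝ) = b.im ^ 2 := by
      push_cast
      rw [h3]
      field_simp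
    have h6 : (0 : ℝ) < ((-((X * X).trace / N') : ℚ) : ℝ) := by
      rw [h5]
      positivity
    exact_mod_cast h6
  · have h4 : (N' : ℂ) ≠ 0 := by exact_mod_cast hNN'
    push_cast
    rw [h2]
    field_simp

/-- with the quadratic field all elements are combinations of the two operators -/
theorem combination {P : Matrix J J ℂ} (hP : IsHodge P) {t : ℂ} (ht : t ≠ 0)
    {X : Matrix J J ℚ} (hX : t • (P - cj P) = cx X) {Z : Matrix J J ℂ} (hZ : Z ∈ mtC P) :
    ∃ α β : ℂ, Z = α • P + β • cj P := by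
  obtain ⟨g, p, q, hg, hp, hq, W, hW⟩ := hP
  refine span_of_kills (S := Bool) (fun s => if s then W else X) P (cj P) Z g hg p q hp hq ?_ ?_ hZ
  · intro s
    cases s
    · refine ⟨t, -t, ?_⟩
      simp only [Bool.false_eq_true, if_false]
      rw [← hX, smul_sub, neg_smul, sub_eq_add_neg]
    · refine ⟨1, 1, ?_⟩
      simp only [if_true]
      rw [← hW, one_smul, one_smul]
  · have h1 : P = (1 / 2 : ℂ) • cx W + (1 / 2 * t⁻¹) • cx X := by
      rw [← hX, ← hW, smul_smul, mul_assoc, inv_mul_cancel₀ ht, mul_one, ← smul_add]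
      rw [show P + cj P + (P - cj P) = (2 : ℂ) • P from by rw [two_smul]; abel]
      rw [smul_smul]
      norm_num
    have h2 : cx W ∈ Submodule.span ℂ (Set.range fun s : Bool => cx (if s then W else X)) :=
      Submodule.subset_span ⟨true, rfl⟩
    have h3 : cx X ∈ Submodule.span ℂ (Set.range fun s : Bool => cx (if s then W else X)) :=
      Submodule.subset_span ⟨false, rfl⟩
    rw [h1]
    exact Submodule.add_mem _ (Submodule.smul_mem _ _ h2) (Submodule.smul_mem _ _ h3)

end traces

end Pool.Agent.TH30.PD
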